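import Pool.Agent.Y34.HB.Stm

set_option autoImplicit false

universe u v

open Metric Set Filter Topology
open Pool.Agent.TH60.FP

namespace Pool.Agent.Y34.HB

lemma le_of_sq' {a b : ℝ} (hb : 0 ≤ b) (h : a ^ 2 ≤ b ^ 2) : a ≤ b := by
  by_contra hc
  push Not at hc
  nlinarith

lemma flat_cn {X : Type u} [MetricSpace X] (hX : CN X) {k : ℕ} {f : E k → X} (hf : Isometry f)
    (x : X) (z z' : E k) : dist x (f (midpoint ℝ z z')) ^ 2 ≤
      (dist x (f z) ^ 2 + dist x (f z') ^ 2) / 2 - dist z z' ^ 2 / 4 := by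
  obtain ⟨m, hm⟩ := hX (f z) (f z')
  have h1 := hm (f (midpoint ℝ z z'))
  rw [hf.dist_eq, hf.dist_eq, hf.dist_eq, dist_midpoint_left, dist_midpoint_right,
    Real.norm_ofNat] at h1
  have h2 : dist (f (midpoint ℝ z z')) m ^ 2 ≤ 0 := by
    have e : ((2⁻¹ * dist z z') ^ 2 + (2⁻¹ * dist z z') ^ 2) / 2 - dist z z' ^ 2 / 4 = 0 := by ring
    exact h1.trans e.le
  have h3 : f (midpoint ℝ z z') = m := by
    have h4 : dist (f (midpoint ℝ z z')) m = 0 := by
      have := sq_nonneg (dist (f (midpoint ℝ z z')) m)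
      exact pow_eq_zero_iff two_ne_zero |>.1 (le_antisymm h2 this)
    exact dist_eq_zero.1 h4
  rw [h3]
  have h5 := hm x
  rw [hf.dist_eq] at h5
  exact h5

/-- comparison for two triangles with a common vertex -/
lemma half_side {X : Type u} [MetricSpace X] {a b e m p : X}
    (hm : ∀ x, dist x m ^ 2 ≤ (dist x a ^ 2 + dist x b ^ 2) / 2 - dist a b ^ 2 / 4)
    (hp : ∀ x, dist x p ^ 2 ≤ (dist x a ^ 2 + dist x e ^ 2) / 2 - dist a e ^ 2 / 4) :
    dist m p ≤ dist b e / 2 := by
  have h1 := hm p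
  have h2 := hp a
  have h3 := hp b
  rw [dist_self] at h2
  rw [dist_comm p m, dist_comm p a, dist_comm p b] at h1
  rw [dist_comm b a] at h3
  refine le_of_sq' (by positivity) ?_
  nlinarith

lemma convex_mid {X : Type u} [MetricSpace X] (hX : CN X) {k : ℕ} {f h : E k → X}
    (hf : Isometry f) (hh : Isometry h) (z z' w w' : E k) :
    dist (f (midpoint ℝ z z')) (h (midpoint ℝ w w')) ≤
      (dist (f z) (h w) + dist (f z') (h w')) / 2 := by
  obtain ⟨p, hp⟩ := hX (f z) (h w')
  have h1 : dist (f (midpoint ℝ z z')) p ≤ dist (f z') (h w') / 2 :=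
    half_side (a := f z) (fun x => by rw [hf.dist_eq]; exact flat_cn hX hf x z z') hp
  have h2 : dist (h (midpoint ℝ w w')) p ≤ dist (h w) (f z) / 2 := by
    refine half_side (a := h w') (b := h w) (e := f z) (fun x => ?_) (fun x => ?_)
    · rw [hh.dist_eq, dist_comm w' w]
      have := flat_cn hX hh x w w'
      linarith
    · have := hp x
      rw [dist_comm (h w') (f z)]
      linarith
  have h3 := dist_triangle_right (f (midpoint ℝ z z')) (h (midpoint ℝ w w')) p
  rw [dist_comm (h w) (f z)] at h2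
  linarith

lemma infDist_mid {X : Type u} [MetricSpace X] (hX : CN X) {k : ℕ} {f h : E k → X}
    (hf : Isometry f) (hh : Isometry h) (z z' : E k) :
    infDist (f (midpoint ℝ z z')) (range h) ≤
      (infDist (f z) (range h) + infDist (f z') (range h)) / 2 := by
  refine le_of_forall_pos_le_add fun ε hε => ?_
  have hne : (range h).Nonempty := range_nonempty h
  obtain ⟨_, ⟨w, rfl⟩, hw⟩ := (infDist_lt_iff hne).1
    (show infDist (f z) (range h) < infDist (f z) (range h) + ε by linarith)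
  obtain ⟨_, ⟨w', rfl⟩, hw'⟩ := (infDist_lt_iff hne).1
    (show infDist (f z') (range h) < infDist (f z') (range h) + ε by linarith)
  have h1 := convex_mid hX hf hh z z' w w'
  have h2 : infDist (f (midpoint ℝ z z')) (range h) ≤
      dist (f (midpoint ℝ z z')) (h (midpoint ℝ w w')) := infDist_le_dist_of_mem (mem_range_self _)
  linarith

theorem t_conv : S_CONV.{u} := by
  intro X _ hX k f h hf hh
  exact ⟨fun x z z' => flat_cn hX hf x z z', fun z z' w w' => convex_mid hX hf hh z z' w w',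
    fun z z' => infDist_mid hX hf hh z z'⟩

/-- a midpoint convex bounded function is constant -/
lemma const_of_mid {k : ℕ} (g : E k → ℝ) (h0 : ∀ z, 0 ≤ g z) (B : ℝ) (hB : ∀ z, g z ≤ B)
    (hm : ∀ z z', g (midpoint ℝ z z') ≤ (g z + g z') / 2) (z w : E k) : g z ≤ g w := by
  by_contra hc
  push Not at hc
  -- g (w + 2 ^ n (z - w)) ≥ g w + 2 ^ n (g z - g w)
  have h1 : ∀ n : ℕ, g w + 2 ^ n * (g z - g w) ≤ g (w + (2 : ℝ) ^ n • (z - w)) := by
    intro n
    induction n with
    | zero => simp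
    | succ n ih =>
      have h2 := hm w (w + (2 : ℝ) ^ (n + 1) • (z - w))
      have h3 : midpoint ℝ w (w + (2 : ℝ) ^ (n + 1) • (z - w)) = w + (2 : ℝ) ^ n • (z - w) := by
        rw [midpoint_eq_smul_add, pow_succ, invOf_eq_inv]
        module
      rw [h3] at h2
      rw [pow_succ] at h2 ⊢
      linarith
  obtain ⟨n, hn⟩ := pow_unbounded_of_one_lt ((B + 1) / (g z - g w)) (one_lt_two (α := ℝ))
  have h2 := h1 n
  have h3 := hB (w + (2 : ℝ) ^ n • (z - w))
  have h4 : B + 1 < 2 ^ n * (g z - g w) := by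
    rwa [div_lt_iff₀ (by linarith)] at hn
  have := h0 w
  linarith

theorem t_const : S_CONST.{u} := by
  intro X _ hX k f h hf hh ⟨B, hB⟩ z w
  apply le_antisymm <;>
  exact const_of_mid (fun z => infDist (f z) (range h)) (fun _ => infDist_nonneg) B hB
    (fun z z' => infDist_mid hX hf hh z z') _ _

theorem t_lim : S_LIM.{u} := by
  intro X _ _ k K hK F hF hF0
  rcases K.eq_empty_or_nonempty with hKe | ⟨x0, hx0⟩
  · exact absurd (hF0 0) (by rw [hKe]; exact notMem_empty _)
  obtain ⟨D, hD⟩ := hK.isBounded.subset_closedBall x0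
  have hlim : ∀ z : E k, ∃ x : X, Tendsto (fun n => F n z) (hyperfilter ℕ : Filter ℕ) (𝓝 x) := by
    intro z
    have hc : IsCompact (closedBall x0 (D + ‖z‖)) := isCompact_closedBall _ _
    have hmem : ∀ n, F n z ∈ closedBall x0 (D + ‖z‖) := by
      intro n
      rw [mem_closedBall]
      have h1 : dist (F n 0) x0 ≤ D := mem_closedBall.1 (hD (hF0 n))
      have h2 : dist (F n z) (F n 0) = ‖z‖ := by rw [(hF n).dist_eq, dist_zero_right]
      have := dist_triangle (F n z) (F n 0) x0
      linarith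
    obtain ⟨x, -, hx⟩ := hc.ultrafilter_le_nhds ((hyperfilter ℕ).map (fun n => F n z)) (by
      rw [le_principal_iff]
      show (fun n => F n z) ⁻¹' (closedBall x0 (D + ‖z‖)) ∈ hyperfilter ℕ
      exact mem_of_superset univ_mem fun n _ => hmem n)
    exact ⟨x, hx⟩
  choose f hf using hlim
  have hfi : Isometry f := by
    refine Isometry.of_dist_eq fun z w => ?_
    have h1 : Tendsto (fun n => dist (F n z) (F n w)) (hyperfilter ℕ : Filter ℕ)
        (𝓝 (dist (f z) (f w))) := (hf z).dist (hf w)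
    have h2 : (fun n => dist (F n z) (F n w)) = fun _ => dist z w := by
      funext n
      exact (hF n).dist_eq z w
    rw [h2] at h1
    exact tendsto_nhds_unique h1 tendsto_const_nhds |>.symm ▸ rfl
  refine ⟨f, hfi, tendsto_pi_nhds.2 hf, fun R ε hε => ?_⟩
  have hc : IsCompact (closedBall (0 : E k) R) := isCompact_closedBall _ _
  obtain ⟨t, -, htf, ht⟩ := hc.finite_cover_balls (show 0 < ε / 3 by positivity)
  have h1 : ∀ᶠ n in (hyperfilter ℕ : Filter ℕ), ∀ w ∈ t, dist (F n w) (f w) < ε / 3 := by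
    rw [htf.eventually_all]
    intro w _
    exact (hf w).eventually (ball_mem_nhds _ (by positivity))
  filter_upwards [h1] with n hn z hz
  have hz' : z ∈ closedBall (0 : E k) R := by rwa [mem_closedBall, dist_zero_right]
  obtain ⟨w, hw, hzw⟩ := mem_iUnion₂.1 (ht hz')
  rw [mem_ball] at hzw
  have h2 := hn w hw
  have h3 : dist (F n z) (F n w) < ε / 3 := by rwa [(hF n).dist_eq]
  have h4 : dist (f w) (f z) < ε / 3 := by rwa [hfi.dist_eq, dist_comm]
  have := dist_triangle4 (F n z) (F n w) (f w) (f z)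
  linarith

end Pool.Agent.Y34.HB
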