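import Pool.Agent.Y34.HB.Basic

set_option autoImplicit false

universe u v

open Metric Set Filter Topology
open Pool.Agent.TH60.FP

namespace Pool.Agent.Y34.HB

/-- a continuous midpoint convex function on the line is convex -/
lemma convexOn_of_mid {φ : ℝ → ℝ} (hc : Continuous φ)
    (hm : ∀ x y, φ ((x + y) / 2) ≤ (φ x + φ y) / 2) : ConvexOn ℝ univ φ := by
  refine ⟨convex_univ, ?_⟩
  intro x _ y _ a b ha hb hab
  -- the difference with the chord
  set g : ℝ → ℝ := fun t => φ ((1 - t) * x + t * y) - ((1 - t) * φ x + t * φ y) with hg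
  have hgc : Continuous g := by fun_prop
  have hgm : ∀ s t, g ((s + t) / 2) ≤ (g s + g t) / 2 := by
    intro s t
    have h1 := hm ((1 - s) * x + s * y) ((1 - t) * x + t * y)
    have h2 : ((1 - s) * x + s * y + ((1 - t) * x + t * y)) / 2 =
        (1 - (s + t) / 2) * x + (s + t) / 2 * y := by ring
    rw [h2] at h1
    simp only [hg]
    linarith
  have hg0 : g 0 = 0 := by simp [hg]
  have hg1 : g 1 = 0 := by simp [hg]
  obtain ⟨p, hp, hmax⟩ := isCompact_Icc.exists_isMaxOn (nonempty_Icc.2 (zero_le_one (α := ℝ)))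
    hgc.continuousOn
  have hle : g p ≤ 0 := by
    by_contra hcon
    push Not at hcon
    -- the smallest point where the maximum is attained
    have hclosed : IsCompact (Icc (0 : ℝ) 1 ∩ g ⁻¹' {g p}) :=
      isCompact_Icc.inter_right (isClosed_singleton.preimage hgc)
    obtain ⟨q, ⟨hq1, hq2⟩, hqmin⟩ := hclosed.exists_isLeast ⟨p, hp, rfl⟩
    have hq2' : g q = g p := hq2
    have hq0 : 0 < q := by
      rcases eq_or_lt_of_le hq1.1 with h | h
      · rw [← h, hg0] at hq2'
        linarith
      · exact h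
    have hq1' : q < 1 := by
      rcases eq_or_lt_of_le hq1.2 with h | h
      · rw [h, hg1] at hq2'
        linarith
      · exact h
    set δ := min q (1 - q) with hδ
    have hδ0 : 0 < δ := lt_min hq0 (by linarith)
    have hδ1 : δ ≤ q := min_le_left _ _
    have hδ2 : δ ≤ 1 - q := min_le_right _ _
    have h1 := hgm (q - δ) (q + δ)
    rw [show (q - δ + (q + δ)) / 2 = q by ring] at h1
    have h2 : g (q + δ) ≤ g p := hmax ⟨by linarith, by linarith⟩
    have h3 : g (q - δ) ≤ g p := hmax ⟨by linarith, by linarith⟩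
    have h4 : g (q - δ) = g p := by linarith
    have h5 : q ≤ q - δ := hqmin ⟨⟨by linarith, by linarith⟩, h4⟩
    linarith
  have hb1 : b ≤ 1 := by linarith
  have h1 : g b ≤ g p := hmax ⟨hb, hb1⟩
  have h2 : g b ≤ 0 := h1.trans hle
  have h3 : a = 1 - b := by linarith
  simp only [hg] at h2
  simp only [smul_eq_mul]
  rw [h3]
  linarith

/-- the shape of the distance of two flats which branch along a half-space -/
theorem shape {X : Type u} [MetricSpace X] (hX : CN X) {k : ℕ} {f h : E k → X}
    (hf : Isometry f) (hh : Isometry h) {a : E k} (ha : ‖a‖ = 1) (hn : NearHalf f h a)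
    (hnn : ¬ Near f h) :
    ∃ φ : ℝ → ℝ, ConvexOn ℝ univ φ ∧ Antitone φ ∧ Tendsto φ atBot atTop ∧
      ∀ z, infDist (f z) (range h) = φ (inner ℝ a z) := by
  set D : E k → ℝ := fun z => infDist (f z) (range h) with hD
  have hlip : ∀ z w, D z ≤ D w + ‖z - w‖ := by
    intro z w
    have h1 := infDist_le_infDist_add_dist (s := range h) (x := f z) (y := f w)
    rw [hf.dist_eq, dist_eq_norm] at h1
    exact h1
  have hmid : ∀ z w, D (midpoint ℝ z w) ≤ (D z + D w) / 2 := infDist_mid hX hf hh
  have hcont : Continuous D := (continuous_infDist_pt _).comp hf.continuous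
  have h0 : ∀ z, 0 ≤ D z := fun z => infDist_nonneg
  obtain ⟨B, hB⟩ := hn
  have hstep1 : ∀ z w : E k, 0 < inner ℝ a w → D (z + w) ≤ D z := by
    intro z w hw
    by_contra hc
    push Not at hc
    have h1 : ∀ n : ℕ, D z + 2 ^ n * (D (z + w) - D z) ≤ D (z + (2 : ℝ) ^ n • w) := by
      intro n
      induction n with
      | zero => simp
      | succ n ih =>
        have h2 := hmid z (z + (2 : ℝ) ^ (n + 1) • w)
        have h3 : midpoint ℝ z (z + (2 : ℝ) ^ (n + 1) • w) = z + (2 : ℝ) ^ n • w := by
          rw [midpoint_eq_smul_add, pow_succ, invOf_eq_inv]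
          module
        rw [h3] at h2
        rw [pow_succ] at h2 ⊢
        linarith
    obtain ⟨n1, hn1⟩ := pow_unbounded_of_one_lt ((B + 1) / (D (z + w) - D z))
      (one_lt_two (α := ℝ))
    obtain ⟨n2, hn2⟩ := pow_unbounded_of_one_lt (-inner ℝ a z / inner ℝ a w) (one_lt_two (α := ℝ))
    have hm1 : (2 : ℝ) ^ n1 ≤ 2 ^ max n1 n2 := pow_le_pow_right₀ one_le_two (le_max_left _ _)
    have hm2 : (2 : ℝ) ^ n2 ≤ 2 ^ max n1 n2 := pow_le_pow_right₀ one_le_two (le_max_right _ _)
    set n := max n1 n2
    have h2 := h1 n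
    have h3 : 0 ≤ inner ℝ a (z + (2 : ℝ) ^ n • w) := by
      rw [inner_add_right, real_inner_smul_right]
      have : -inner ℝ a z / inner ℝ a w < 2 ^ n := lt_of_lt_of_le hn2 hm2
      rw [div_lt_iff₀ hw] at this
      linarith
    have h4 := hB _ h3
    have h5 : B + 1 < 2 ^ n * (D (z + w) - D z) := by
      have : (B + 1) / (D (z + w) - D z) < 2 ^ n := lt_of_lt_of_le hn1 hm1
      rwa [div_lt_iff₀ (by linarith)] at this
    have := h0 z
    have h6 : D (z + (2 : ℝ) ^ n • w) ≤ B := h4
    linarith
  have hstep : ∀ z w : E k, 0 ≤ inner ℝ a w → D (z + w) ≤ D z := by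
    intro z w hw
    refine le_of_forall_pos_le_add fun ε hε => ?_
    have h1 := hstep1 z (w + ε • a) (by
      rw [inner_add_right, real_inner_smul_right, real_inner_self_eq_norm_sq, ha]
      linarith)
    have h2 := hlip (z + w) (z + (w + ε • a))
    have h3 : ‖z + w - (z + (w + ε • a))‖ = ε := by
      rw [show z + w - (z + (w + ε • a)) = -(ε • a) by abel, norm_neg, norm_smul, ha,
        Real.norm_eq_abs, abs_of_pos hε, mul_one]
    rw [h3] at h2
    linarith
  have hmono : ∀ z w : E k, inner ℝ a z ≤ inner ℝ a w → D w ≤ D z := by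
    intro z w hzw
    have h1 := hstep z (w - z) (by rw [inner_sub_right]; linarith)
    rwa [add_sub_cancel] at h1
  have hin : ∀ t : ℝ, inner ℝ a (t • a) = t := by
    intro t
    rw [real_inner_smul_right, real_inner_self_eq_norm_sq, ha]
    ring
  have hrep : ∀ z, D z = D ((inner ℝ a z : ℝ) • a) := by
    intro z
    apply le_antisymm <;> apply hmono <;> rw [hin]
  have hanti : Antitone fun t : ℝ => D (t • a) := by
    intro s t hst
    apply hmono
    rw [hin, hin]
    exact hst
  refine ⟨fun t => D (t • a), ?_, hanti, ?_, hrep⟩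
  · refine convexOn_of_mid (by fun_prop) fun x y => ?_
    have h1 := hmid (x • a) (y • a)
    have h2 : midpoint ℝ (x • a) (y • a) = ((x + y) / 2) • a := by
      rw [midpoint_eq_smul_add, invOf_eq_inv]
      module
    rw [h2] at h1
    exact h1
  · refine tendsto_atBot_atTop_of_antitone hanti fun b => ?_
    by_contra hc
    push Not at hc
    apply hnn
    refine ⟨b, fun z => ?_⟩
    have h1 := hrep z
    have h2 := hc (inner ℝ a z)
    show D z ≤ b
    rw [h1]
    exact h2.le

end Pool.Agent.Y34.HB
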