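import Mathlib
import Pool.Agent.TH60.FP.Defs

/-!
# Project HB (owner helper34): flats which do not branch along half-spaces

`G` acts geometrically on the proper CAT(0) space `X`, `k` is the maximal dimension of flats.
If two flats of dimension `k` which stay at bounded distance along a half-space are always
parallel, then all flats of dimension `k` are uniformly isolated and periodic, and `ℤ²` is a subgroup
of `G` as soon as `k ≥ 2`.

Every `def S_... : Prop` is the statement of one part.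
-/

set_option autoImplicit false

universe u v

open Metric Set Filter Topology
open Pool.Agent.TH60.FP

namespace Pool.Agent.Y34.HB

/-- Euclidean space -/
abbrev E (k : ℕ) : Type := EuclideanSpace ℝ (Fin k)

/-- the flat `f` stays at bounded distance from the flat `h` -/
def Near {X : Type u} [MetricSpace X] {k : ℕ} (f h : E k → X) : Prop :=
  ∃ B : ℝ, ∀ z, infDist (f z) (range h) ≤ B

/-- the flat `f` stays at bounded distance from the flat `h` along the half-space `⟪u, z⟫ ≥ 0` -/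
def NearHalf {X : Type u} [MetricSpace X] {k : ℕ} (f h : E k → X) (a : E k) : Prop :=
  ∃ B : ℝ, ∀ z, 0 ≤ inner ℝ a z → infDist (f z) (range h) ≤ B

/-- the flats `f` and `h ∘ e` are parallel at distance `d` and `h (e z)` is the projection of
`f z` -/
def Rect {X : Type u} [MetricSpace X] {k : ℕ} (f h : E k → X) (e : E k → E k) (d : ℝ) : Prop :=
  0 ≤ d ∧ ∀ z w, dist (f z) (h (e w)) ^ 2 = d ^ 2 + dist z w ^ 2

/-- a geometric action on a proper CAT(0) space -/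
structure Geo (X : Type u) [MetricSpace X] (G : Type v) [Group G] [MulAction G X] : Prop where
  proper : ProperSpace X
  isom : IsIsometricSMul G X
  disc : ProperlyDiscontinuousSMul G X
  cc : ∃ K : Set X, IsCompact K ∧ ∀ x : X, ∃ g : G, g • x ∈ K
  cn : CN X

/-- a closed invariant family of flats -/
structure Fam {X : Type u} [MetricSpace X] (G : Type v) [Group G] [MulAction G X] {k : ℕ}
    (L : Set (E k → X)) : Prop where
  isom : ∀ f ∈ L, Isometry f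
  closed : IsClosed L
  smul : ∀ f ∈ L, ∀ g : G, (fun z => g • f z) ∈ L
  trans : ∀ f ∈ L, ∀ a : E k, (fun z => f (a + z)) ∈ L

/-! ### parallel flats -/

/-- CONV -/
def S_CONV : Prop := ∀ (X : Type u) [MetricSpace X], CN X → ∀ (k : ℕ) (f h : E k → X),
  Isometry f → Isometry h →
  (∀ (x : X) (z z' : E k), dist x (f (midpoint ℝ z z')) ^ 2 ≤
    (dist x (f z) ^ 2 + dist x (f z') ^ 2) / 2 - dist z z' ^ 2 / 4) ∧
  (∀ z z' w w' : E k, dist (f (midpoint ℝ z z')) (h (midpoint ℝ w w')) ≤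
    (dist (f z) (h w) + dist (f z') (h w')) / 2) ∧
  (∀ z z' : E k, infDist (f (midpoint ℝ z z')) (range h) ≤
    (infDist (f z) (range h) + infDist (f z') (range h)) / 2)

/-- CONST -/
def S_CONST : Prop := ∀ (X : Type u) [MetricSpace X], CN X → ∀ (k : ℕ) (f h : E k → X),
  Isometry f → Isometry h → Near f h → ∀ z w : E k,
    infDist (f z) (range h) = infDist (f w) (range h)

/-- PAR -/
def S_PAR : Prop := ∀ (X : Type u) [MetricSpace X] [ProperSpace X], CN X →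
  ∀ (k : ℕ) (f h : E k → X), Isometry f → Isometry h → Near f h →
    ∃ e : E k ≃ᵃⁱ[ℝ] E k, Rect f h e (infDist (f 0) (range h))

/-- COMP -/
def S_COMP : Prop := ∀ (X : Type u) [MetricSpace X], CN X → ∀ (k : ℕ) (f1 f2 f3 : E k → X)
  (e e' : E k ≃ᵃⁱ[ℝ] E k) (d d' : ℝ), Isometry f1 → Isometry f2 → Isometry f3 →
  Rect f1 f2 e d → Rect f2 f3 e' d' → ∃ d'', Rect f1 f3 (fun z => e' (e z)) d''

/-- UNIQ -/
def S_UNIQ : Prop := ∀ (X : Type u) [MetricSpace X] (k : ℕ) (f h : E k → X)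
  (e e' : E k ≃ᵃⁱ[ℝ] E k) (d d' : ℝ), Isometry f → Isometry h →
  Rect f h e d → Rect f h e' d' → e = e' ∧ d = d'

/-- HOM: the stabiliser of the parallelism class of a flat acts on the flat -/
def S_HOM : Prop := ∀ (X : Type u) [MetricSpace X] (G : Type v) [Group G] [MulAction G X],
  Geo X G → ∀ (k : ℕ) (f : E k → X), Isometry f →
  ∃ (Γ : Subgroup G) (e : Γ →* (E k ≃ᵃⁱ[ℝ] E k)),
    (∀ g : G, g ∈ Γ ↔ Near (fun z => g • f z) f) ∧
    ∀ g : Γ, ∃ d, Rect (fun z => (g : G) • f z) f (e g) d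

/-! ### thick parallel sets -/

/-- CNL: points dividing a segment -/
def S_CNL : Prop := ∀ (X : Type u) [MetricSpace X] [ProperSpace X], CN X → ∀ (p q : X) (l : ℝ),
  0 ≤ l → l ≤ 1 → ∃ m : X, ∀ x : X,
    dist x m ^ 2 ≤ (1 - l) * dist x p ^ 2 + l * dist x q ^ 2 - l * (1 - l) * dist p q ^ 2

/-- SLAB: two parallel flats bound a flat slab -/
def S_SLAB : Prop := ∀ (X : Type u) [MetricSpace X] [ProperSpace X], CN X →
  ∀ (k : ℕ) (f h : E k → X) (e : E k → E k) (d : ℝ), Isometry f → Isometry h → Isometry e →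
  0 < d → Rect f h e d →
  ∃ P : E k → ℝ → X, ∀ z w s t, 0 ≤ s → s ≤ d → 0 ≤ t → t ≤ d →
    dist (P z s) (P w t) ^ 2 = dist z w ^ 2 + (s - t) ^ 2

/-- THICK: arbitrarily distant parallel flats give a flat of the next dimension -/
def S_THICK : Prop := ∀ (X : Type u) [MetricSpace X] (G : Type v) [Group G] [MulAction G X],
  Geo X G → ∀ k : ℕ, (∀ f : E (k + 1) → X, ¬ Isometry f) →
  ∃ M0 : ℝ, ∀ (f h : E k → X) (e : E k → E k) (d : ℝ), Isometry f → Isometry h → Isometry e →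
    Rect f h e d → d ≤ M0

/-- DIM: the dimension of flats is bounded -/
def S_DIM : Prop := ∀ (X : Type u) [MetricSpace X] (G : Type v) [Group G] [MulAction G X],
  Geo X G → ∃ N : ℕ, ∀ (k : ℕ) (f : E k → X), Isometry f → k ≤ N

/-! ### compactness -/

/-- LIM: limits of flats -/
def S_LIM : Prop := ∀ (X : Type u) [MetricSpace X] [ProperSpace X] (k : ℕ) (K : Set X),
  IsCompact K → ∀ F : ℕ → E k → X, (∀ n, Isometry (F n)) → (∀ n, F n 0 ∈ K) →
  ∃ f : E k → X, Isometry f ∧ Tendsto F (hyperfilter ℕ : Filter ℕ) (𝓝 f) ∧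
    ∀ R ε : ℝ, 0 < ε → ∀ᶠ n in (hyperfilter ℕ : Filter ℕ), ∀ z, ‖z‖ ≤ R → dist (F n z) (f z) ≤ ε

/-- KEY: isolation of flats -/
def S_KEY : Prop := ∀ (X : Type u) [MetricSpace X] (G : Type v) [Group G] [MulAction G X],
  Geo X G → ∀ (k : ℕ) (L : Set (E k → X)), Fam G L →
  (∀ f ∈ L, ∀ h ∈ L, ∀ a : E k, ‖a‖ = 1 → NearHalf f h a → Near f h) →
  ∀ M0 : ℝ, (∀ f ∈ L, ∀ h ∈ L, Near f h → infDist (f 0) (range h) ≤ M0) →
  ∀ M1 : ℝ, ∃ R0 : ℝ, ∀ f ∈ L, ∀ h ∈ L,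
    (∀ z, ‖z‖ ≤ R0 → infDist (f z) (range h) ≤ M1) → Near f h

/-- COC: isolated flats are periodic -/
def S_COC : Prop := ∀ (X : Type u) [MetricSpace X] (G : Type v) [Group G] [MulAction G X],
  Geo X G → ∀ (k : ℕ) (L : Set (E k → X)), Fam G L →
  (∃ R0 : ℝ, ∀ f ∈ L, ∀ h ∈ L, (∀ z, ‖z‖ ≤ R0 → infDist (f z) (range h) ≤ 2) → Near f h) →
  ∀ f ∈ L, ∃ r : ℝ, ∀ z, ∃ g : G, Near (fun z => g • f z) f ∧ dist (g • f 0) (f z) ≤ r

/-! ### Bieberbach -/

/-- MINI: elements of a crystallographic group with small rotation part in every direction -/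
def S_MINI : Prop := ∀ (k : ℕ) (Γ : Type v) [Group Γ] (e : Γ →* (E k ≃ᵃⁱ[ℝ] E k)) (r : ℝ),
  (∀ z, ∃ g, ‖e g 0 - z‖ ≤ r) → ∀ (a : E k) (ε : ℝ), 0 < ε → ∃ C : ℝ, ∀ T : ℝ, ∃ t : ℝ, T ≤ t ∧
    ∃ g : Γ, ‖e g 0 - t • a‖ ≤ C ∧ ∀ z, ‖(e g).linearIsometryEquiv z - z‖ ≤ ε * ‖z‖

/-- ROT: in a crystallographic group small rotation parts are trivial -/
def S_ROT : Prop := ∀ (k : ℕ) (Γ : Type v) [Group Γ] (e : Γ →* (E k ≃ᵃⁱ[ℝ] E k)),
  (∀ R : ℝ, {g : Γ | ‖e g 0‖ ≤ R}.Finite) →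
  (∀ (a : E k) (ε : ℝ), 0 < ε → ∃ C : ℝ, ∀ T : ℝ, ∃ t : ℝ, T ≤ t ∧
    ∃ g : Γ, ‖e g 0 - t • a‖ ≤ C ∧ ∀ z, ‖(e g).linearIsometryEquiv z - z‖ ≤ ε * ‖z‖) →
  ∀ g : Γ, (∀ z, ‖(e g).linearIsometryEquiv z - z‖ ≤ 1 / 4 * ‖z‖) →
    ∀ z, (e g).linearIsometryEquiv z = z

/-- END -/
def S_END : Prop := ∀ (X : Type u) [MetricSpace X] (G : Type v) [Group G] [MulAction G X],
  Geo X G → ∀ (k : ℕ), 2 ≤ k → ∀ (f : E k → X), Isometry f → ∀ (g : G) (a : E k) (B : ℝ), a ≠ 0 →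
  (∀ (i : ℤ) (z : E k), dist (g ^ i • f z) (f (z + (i : ℝ) • a)) ≤ B) →
  ∃ φ : Multiplicative (ℤ × ℤ) →* G, Function.Injective φ

end Pool.Agent.Y34.HB
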