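import Pool.Agent.Y34.HB.Basic

set_option autoImplicit false

universe u v

open Metric Set Filter Topology
open Pool.Agent.TH60.FP

namespace Pool.Agent.Y34.HB

/-- translating the parameters does not change nearness -/
lemma near_shift {X : Type u} [MetricSpace X] {k : ℕ} {f h : E k → X} (a b : E k)
    (H : Near (fun z => f (a + z)) (fun z => h (b + z))) : Near f h := by
  obtain ⟨B, hB⟩ := H
  refine ⟨B, fun z => ?_⟩
  have h1 := hB (z - a)
  have h2 : range (fun z => h (b + z)) = range h := by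
    ext x
    constructor
    · rintro ⟨z, rfl⟩
      exact ⟨b + z, rfl⟩
    · rintro ⟨z, rfl⟩
      exact ⟨z - b, by simp⟩
  rw [h2] at h1
  simpa using h1

theorem t_coc : S_COC.{u, v} := by
  intro X _ G _ _ hG k L hL ⟨R1, hR1⟩ f hf
  obtain ⟨R0, hR, hR0⟩ : ∃ R0 : ℝ, 0 ≤ R0 ∧ ∀ f ∈ L, ∀ h ∈ L,
      (∀ z, ‖z‖ ≤ R0 → infDist (f z) (range h) ≤ 2) → Near f h :=
    ⟨max R1 0, le_max_right _ _, fun f hf h hh H => hR1 f hf h hh fun z hz =>
      H z (hz.trans (le_max_left _ _))⟩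
  have := hG.proper
  have := hG.isom
  obtain ⟨K, hK, hKG⟩ := hG.cc
  by_contra hcon
  push Not at hcon
  -- bad points
  have hbad : ∀ n : ℕ, ∃ z : E k, ∀ g : G, Near (fun z => g • f z) f →
      (n : ℝ) < dist (g • f 0) (f z) := fun n => hcon n
  choose z hz using hbad
  choose g hg using fun n => hKG (f (z n))
  set F : ℕ → E k → X := fun n u => g n • f (z n + u) with hFdef
  have hFL : ∀ n, F n ∈ L := fun n => hL.smul _ (hL.trans f hf (z n)) (g n)
  obtain ⟨ψ, hψ, -, hlim⟩ := t_lim X k K hK F (fun n => hL.isom _ (hFL n))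
    (fun n => by
      show g n • f (z n + 0) ∈ K
      rw [add_zero]
      exact hg n)
  have h1 := hlim R0 1 one_pos
  obtain ⟨m, hm⟩ := h1.exists
  have h2 : ∀ᶠ n : ℕ in (hyperfilter ℕ : Filter ℕ), ‖z m‖ + 2 < (n : ℝ) := by
    have : ∀ᶠ n : ℕ in atTop, ‖z m‖ + 2 < (n : ℝ) :=
      tendsto_natCast_atTop_atTop.eventually_gt_atTop _
    exact Nat.hyperfilter_le_atTop this
  obtain ⟨n, hn, hn2⟩ := (h1.and h2).exists
  -- the element `(g n)⁻¹ * g m`
  have hclose : ∀ u : E k, ‖u‖ ≤ R0 →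
      dist (((g n)⁻¹ * g m) • f (z m + u)) (f (z n + u)) ≤ 2 := by
    intro u hu
    have e1 : dist (((g n)⁻¹ * g m) • f (z m + u)) (f (z n + u)) = dist (F m u) (F n u) := by
      show _ = dist (g m • f (z m + u)) (g n • f (z n + u))
      rw [mul_smul, ← dist_smul (g n) ((g n)⁻¹ • g m • f (z m + u)) (f (z n + u)), smul_inv_smul]
    rw [e1]
    have := dist_triangle_right (F m u) (F n u) (ψ u)
    have := hm u hu
    have := hn u hu
    linarith
  have hR0' : ∀ u : E k, ‖u‖ ≤ R0 → infDist ((fun w => ((g n)⁻¹ * g m) • f (z m + w)) u)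
      (range (fun w => f (z n + w))) ≤ 2 := fun u hu =>
    (infDist_le_dist_of_mem (mem_range_self u)).trans (hclose u hu)
  have hnear : Near (fun w => ((g n)⁻¹ * g m) • f (z m + w)) (fun w => f (z n + w)) :=
    hR0 _ (hL.smul _ (hL.trans f hf (z m)) ((g n)⁻¹ * g m)) _ (hL.trans f hf (z n)) hR0'
  have hnear' : Near (fun w => ((g n)⁻¹ * g m) • f w) f :=
    near_shift (f := fun w => ((g n)⁻¹ * g m) • f w) (z m) (z n) hnear
  have h3 := hz n _ hnear'
  have h4 : dist (((g n)⁻¹ * g m) • f 0) (((g n)⁻¹ * g m) • f (z m)) = ‖z m‖ := by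
    rw [dist_smul, (hL.isom f hf).dist_eq, dist_zero_left]
  have h5 := hclose 0 (by simpa using hR)
  rw [add_zero, add_zero] at h5
  have := dist_triangle (((g n)⁻¹ * g m) • f 0) (((g n)⁻¹ * g m) • f (z m)) (f (z n))
  linarith

end Pool.Agent.Y34.HB
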