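import Pool.Agent.Y34.HB.Stm

set_option autoImplicit false

universe u v

open Metric Set Filter Topology

namespace Pool.Agent.Y34.HB

section Alg

variable {k : ℕ} {Γ : Type v} [Group Γ] (e : Γ →* (E k ≃ᵃⁱ[ℝ] E k))

/-- `g` acts as the translation by `a` -/
def IsTr (g : Γ) (a : E k) : Prop := ∀ z, e g z = z + a

variable {e}

lemma IsTr.mul {g h : Γ} {a b : E k} (hg : IsTr e g a) (hh : IsTr e h b) :
    IsTr e (g * h) (a + b) := by
  intro z
  rw [map_mul]
  show e g (e h z) = _
  rw [hh, hg]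
  abel

lemma IsTr.one : IsTr e (1 : Γ) 0 := by
  intro z
  rw [map_one, add_zero]
  rfl

lemma IsTr.inv {g : Γ} {a : E k} (hg : IsTr e g a) : IsTr e g⁻¹ (-a) := by
  intro z
  have h1 : e g⁻¹ (e g (z - a)) = z - a := by
    have : (e g⁻¹ * e g) (z - a) = z - a := by
      rw [← map_mul, inv_mul_cancel, map_one]
      rfl
    exact this
  rw [hg, sub_add_cancel] at h1
  rw [h1]
  abel

lemma IsTr.pow {g : Γ} {a : E k} (hg : IsTr e g a) (n : ℕ) : IsTr e (g ^ n) (n • a) := by
  induction n with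
  | zero => simpa using IsTr.one
  | succ n ih =>
    rw [pow_succ, succ_nsmul]
    exact ih.mul hg

lemma IsTr.zpow {g : Γ} {a : E k} (hg : IsTr e g a) (n : ℤ) : IsTr e (g ^ n) (n • a) := by
  obtain ⟨m, rfl | rfl⟩ := n.eq_nat_or_neg
  · simpa using hg.pow m
  · rw [zpow_neg, neg_smul]
    simpa using (hg.pow m).inv

/-- two translations: a power of the first one commutes with the second one -/
lemma exists_pow_commute (hfin : {g : Γ | e g 0 = 0}.Finite) {g h : Γ} {a b : E k}
    (hg : IsTr e g a) (hh : IsTr e h b) : ∃ m : ℕ, 0 < m ∧ Commute (g ^ m) h := by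
  have hmem : ∀ n : ℕ, (g ^ n * h * (g ^ n)⁻¹) * h⁻¹ ∈ {g : Γ | e g 0 = 0} := by
    intro n
    have h1 := (((hg.pow n).mul hh).mul (hg.pow n).inv).mul hh.inv 0
    show e _ 0 = 0
    rw [h1]
    abel
  have hnin : ¬ Function.Injective (fun n : ℕ => (g ^ n * h * (g ^ n)⁻¹) * h⁻¹) := by
    intro hinj
    exact Set.infinite_of_injective_forall_mem hinj hmem hfin
  rw [Function.not_injective_iff] at hnin
  obtain ⟨n1, n2, h1, h2⟩ := hnin
  simp only [mul_left_inj] at h1
  -- wlog
  have key : ∀ n1 n2 : ℕ, n1 < n2 → g ^ n1 * h * (g ^ n1)⁻¹ = g ^ n2 * h * (g ^ n2)⁻¹ →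
      ∃ m : ℕ, 0 < m ∧ Commute (g ^ m) h := by
    intro n1 n2 hlt heq
    refine ⟨n2 - n1, by omega, ?_⟩
    obtain ⟨d, rfl⟩ : ∃ d, n2 = n1 + d := ⟨n2 - n1, by omega⟩
    rw [show n1 + d - n1 = d by omega]
    rw [pow_add, mul_inv_rev] at heq
    have h3 : h = g ^ d * h * (g ^ d)⁻¹ := by
      have h4 : g ^ n1 * h * (g ^ n1)⁻¹ = g ^ n1 * (g ^ d * h * (g ^ d)⁻¹) * (g ^ n1)⁻¹ := by
        rw [heq]
        group
      exact mul_left_cancel (mul_right_cancel h4)
    show g ^ d * h = h * g ^ d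
    exact (eq_mul_inv_iff_mul_eq.1 h3).symm
  rcases lt_or_gt_of_ne h2 with h3 | h3
  · exact key n1 n2 h3 h1
  · exact key n2 n1 h3 h1.symm

/-- linearly independent translations give a free abelian group -/
theorem free_of_translations (hfin : {g : Γ | e g 0 = 0}.Finite) (g : Fin k → Γ)
    (a : Fin k → E k) (ha : LinearIndependent ℝ a) (hg : ∀ i, IsTr e (g i) (a i)) :
    ∃ (φ : Multiplicative (Fin k → ℤ) →* Γ) (b : Fin k → E k), Function.Injective φ ∧
      LinearIndependent ℝ b ∧ ∀ n : Fin k → ℤ, IsTr e (φ (Multiplicative.ofAdd n)) (∑ i, n i • b i) := by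
  choose m hm0 hm using fun i j => exists_pow_commute hfin (hg i) (hg j)
  set M : ℕ := ∏ i, ∏ j, m i j with hM
  have hM0 : 0 < M := Finset.prod_pos fun i _ => Finset.prod_pos fun j _ => hm0 i j
  have hMc : ∀ i j, Commute (g i ^ M) (g j) := by
    intro i j
    have h1 : m i j ∣ M := (Finset.dvd_prod_of_mem (fun j => m i j) (Finset.mem_univ j)).trans
      (Finset.dvd_prod_of_mem (fun i => ∏ j, m i j) (Finset.mem_univ i))
    obtain ⟨c, hc⟩ := h1
    rw [hc, pow_mul]
    exact (hm i j).pow_left c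
  have hcomm : Pairwise fun i j => ∀ x y : Multiplicative ℤ,
      Commute (zpowersHom Γ (g i ^ M) x) (zpowersHom Γ (g j ^ M) y) := by
    intro i j _ x y
    rw [zpowersHom_apply, zpowersHom_apply]
    exact (((hMc i j).pow_right M).zpow_left _).zpow_right _
  set Φ : (Fin k → Multiplicative ℤ) →* Γ :=
    MonoidHom.noncommPiCoprod (fun i => zpowersHom Γ (g i ^ M)) hcomm with hΦ
  -- the translation of `Φ n`
  let T : Multiplicative (E k) →* (E k ≃ᵃⁱ[ℝ] E k) :=
    { toFun := fun v => AffineIsometryEquiv.constVAdd ℝ (E k) v.toAdd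
      map_one' := by
        ext z
        simp
      map_mul' := fun x y => by
        ext z
        simp [add_assoc] }
  let S : (Fin k → Multiplicative ℤ) →* Multiplicative (E k) :=
    { toFun := fun n => Multiplicative.ofAdd (∑ i, (n i).toAdd • (M • a i))
      map_one' := by simp
      map_mul' := fun x y => by
        simp [add_smul, Finset.sum_add_distrib] }
  have hTS : e.comp Φ = T.comp S := by
    refine MonoidHom.pi_ext fun i x => ?_
    rw [MonoidHom.comp_apply, MonoidHom.comp_apply, hΦ, MonoidHom.noncommPiCoprod_mulSingle]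
    rw [zpowersHom_apply]
    ext1 z
    rw [((hg i).pow M).zpow x.toAdd z]
    show _ = (∑ j, (Pi.mulSingle (M := fun _ => Multiplicative ℤ) i x j).toAdd • (M • a j)) + z
    rw [Finset.sum_eq_single i]
    · rw [Pi.mulSingle_eq_same, add_comm]
    · intro j _ hj
      rw [Pi.mulSingle_eq_of_ne hj]
      simp
    · simp
  let J : Multiplicative (Fin k → ℤ) →* (Fin k → Multiplicative ℤ) :=
    { toFun := fun n i => Multiplicative.ofAdd (n.toAdd i)
      map_one' := by
        funext i
        simp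
      map_mul' := fun x y => by
        funext i
        simp }
  have hTr : ∀ n : Fin k → ℤ, IsTr e ((Φ.comp J) (Multiplicative.ofAdd n))
      (∑ i, n i • (M • a i)) := by
    intro n z
    have h1 : e ((Φ.comp J) (Multiplicative.ofAdd n)) = (T.comp S) (J (Multiplicative.ofAdd n)) := by
      rw [← hTS]
      rfl
    rw [h1]
    show (∑ i, n i • (M • a i)) + z = _
    rw [add_comm]
  refine ⟨Φ.comp J, fun i => M • a i, ?_, ?_, hTr⟩
  swap
  · have h7 : (M : ℝ) ≠ 0 := by exact_mod_cast hM0.ne'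
    have h8 : (fun i => M • a i) = fun i => (M : ℝ) • a i := by
      funext i
      rw [← Nat.cast_smul_eq_nsmul ℝ]
    rw [h8]
    exact ha.units_smul (fun _ => Units.mk0 (M : ℝ) h7)
  rw [injective_iff_map_eq_one]
  intro n hn
  have h1 : (T.comp S) (J n) 0 = 0 := by
    rw [← hTS]
    rw [MonoidHom.comp_apply] at hn ⊢
    rw [hn, map_one]
    rfl
  have h2 : ∑ i, (n.toAdd i) • (M • a i) = 0 := by
    have h3 : (T.comp S) (J n) 0 = (∑ i, (n.toAdd i) • (M • a i)) + 0 := rfl
    rw [h3, add_zero] at h1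
    exact h1
  have h3 : ∑ i, ((n.toAdd i : ℝ) * M) • a i = 0 := by
    rw [← h2]
    refine Finset.sum_congr rfl fun i _ => ?_
    rw [← Int.cast_smul_eq_zsmul ℝ, ← Nat.cast_smul_eq_nsmul ℝ, mul_smul]
  have h4 := Fintype.linearIndependent_iff.1 ha _ h3
  have h5 : n.toAdd = 0 := by
    funext i
    have h6 := h4 i
    have h7 : (M : ℝ) ≠ 0 := by exact_mod_cast hM0.ne'
    have h8 := (mul_eq_zero.1 h6).resolve_right h7
    exact_mod_cast h8
  exact h5

end Alg

end Pool.Agent.Y34.HB
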