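import Pool.Agent.Y34.HB.Alg
import Pool.Agent.Y34.HB.Basic

set_option autoImplicit false

universe u v

open Metric Set Filter Topology
open Pool.Agent.TH60.FP

namespace Pool.Agent.Y34.HB

/-- a matrix with large diagonal has linearly independent rows -/
lemma linInd_of_diag {k : ℕ} (a : Fin k → E k) (C : ℝ) (t : Fin k → ℝ)
    (ht : ∀ i, k * C < t i) (h : ∀ i, ‖a i - t i • EuclideanSpace.single i (1 : ℝ)‖ ≤ C) :
    LinearIndependent ℝ a := by
  set A : Matrix (Fin k) (Fin k) ℝ := fun i j => a i j with hA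
  have hco : ∀ i j, |a i j - t i * (if j = i then 1 else 0)| ≤ C := by
    intro i j
    have h1 := EuclideanSpace.norm_eq (a i - t i • EuclideanSpace.single i (1 : ℝ))
    have h2 : ‖(a i - t i • EuclideanSpace.single i (1 : ℝ)) j‖ ≤
        ‖a i - t i • EuclideanSpace.single i (1 : ℝ)‖ := PiLp.norm_apply_le _ _
    have h3 : (a i - t i • EuclideanSpace.single i (1 : ℝ)) j =
        a i j - t i * (if j = i then 1 else 0) := by
      simp
    rw [h3, Real.norm_eq_abs] at h2
    exact h2.trans (h i)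
  have hdet : A.det ≠ 0 := by
    refine det_ne_zero_of_sum_row_lt_diag fun i => ?_
    have h1 : ∑ j ∈ Finset.univ.erase i, ‖A i j‖ ≤ ∑ j ∈ Finset.univ.erase i, C := by
      refine Finset.sum_le_sum fun j hj => ?_
      have h2 := hco i j
      rw [if_neg (Finset.ne_of_mem_erase hj), mul_zero, sub_zero] at h2
      exact h2
    have h2 : ∑ j ∈ Finset.univ.erase i, C = ((k : ℝ) - 1) * C := by
      rw [Finset.sum_const, Finset.card_erase_of_mem (Finset.mem_univ i), Finset.card_univ,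
        Fintype.card_fin, nsmul_eq_mul]
      have : 1 ≤ k := by
        have := i.2
        omega
      push_cast [this]
      ring
    have h3 := hco i i
    rw [if_pos rfl, mul_one] at h3
    have h4 : t i - C ≤ A i i := by
      have := (abs_le.1 h3).1
      simp only [hA]
      linarith
    have h5 := ht i
    have h6 : A i i ≤ ‖A i i‖ := le_abs_self _
    have h7 : ((k : ℝ) - 1) * C = k * C - C := by ring
    linarith
  have hrows : LinearIndependent ℝ A := by
    have := Matrix.linearIndependent_rows_of_det_ne_zero hdet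
    exact this
  have h1 : LinearIndependent ℝ (fun i => (WithLp.linearEquiv 2 ℝ (Fin k → ℝ)) (a i)) := hrows
  exact LinearIndependent.of_comp (WithLp.linearEquiv 2 ℝ (Fin k → ℝ)).toLinearMap h1

/-- a flat whose parallelism class is coarsely periodic is coarsely invariant under `ℤ ^ k` -/
theorem closing (hHOM : S_HOM.{u, v}) (hMINI : S_MINI.{v}) (hROT : S_ROT.{v})
    {X : Type u} [MetricSpace X] {G : Type v} [Group G] [MulAction G X] (hG : Geo X G) (k : ℕ)
    (M0 : ℝ) (hM0 : ∀ (f h : E k → X) (e : E k → E k) (d : ℝ), Isometry f → Isometry h →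
      Isometry e → Rect f h e d → d ≤ M0)
    (f : E k → X) (hf : Isometry f) (r : ℝ)
    (hr : ∀ z, ∃ g : G, Near (fun z => g • f z) f ∧ dist (g • f 0) (f z) ≤ r) :
    ∃ (φ : Multiplicative (Fin k → ℤ) →* G) (b : Fin k → E k), Function.Injective φ ∧
      LinearIndependent ℝ b ∧
      ∀ (n : Fin k → ℤ) (z : E k), dist (φ (Multiplicative.ofAdd n) • f z)
        (f (z + ∑ i, n i • b i)) ≤ M0 := by
  have := hG.proper
  have := hG.isom
  have := hG.disc
  obtain ⟨Γ, e, hΓ, he⟩ := hHOM X G hG k f hf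
  have hgf : ∀ g : G, Isometry (fun z => g • f z) := fun g => (isometry_smul X g).comp hf
  have hdist : ∀ (g : Γ) (z : E k), dist ((g : G) • f z) (f (e g z)) ≤ M0 := by
    intro g z
    obtain ⟨d, hd⟩ := he g
    have h1 := hM0 _ _ _ _ (hgf g) hf (e g).isometry hd
    have h2 := hd.2 z z
    rw [dist_self] at h2
    have h3 : dist ((g : G) • f z) (f (e g z)) = d := by
      have h4 : dist ((g : G) • f z) (f (e g z)) ^ 2 = d ^ 2 := by
        rw [h2]
        ring
      exact (sq_eq_sq₀ dist_nonneg hd.1).1 h4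
    rw [h3]
    exact h1
  have hcoc : ∀ z, ∃ g : Γ, ‖e g 0 - z‖ ≤ M0 + r := by
    intro z
    obtain ⟨g, hg1, hg2⟩ := hr z
    refine ⟨⟨g, (hΓ g).2 hg1⟩, ?_⟩
    rw [← dist_eq_norm, ← hf.dist_eq]
    have h1 := hdist ⟨g, (hΓ g).2 hg1⟩ 0
    have h2 := dist_triangle (f (e ⟨g, (hΓ g).2 hg1⟩ 0)) (g • f 0) (f z)
    rw [dist_comm] at h1
    have h3 : dist (f (e ⟨g, (hΓ g).2 hg1⟩ 0)) (g • f 0) ≤ M0 := h1
    linarith
  have hfin : ∀ R : ℝ, {g : Γ | ‖e g 0‖ ≤ R}.Finite := by
    intro R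
    have h1 := ProperlyDiscontinuousSMul.finite_disjoint_inter_image (Γ := G)
      (isCompact_singleton (x := f 0)) (isCompact_closedBall (f 0) (M0 + R))
    refine (h1.preimage (f := ((↑) : Γ → G)) Subtype.val_injective.injOn).subset ?_
    intro g hg
    have hg' : ‖e g 0‖ ≤ R := hg
    show ((fun x => (g : G) • x) '' {f 0} ∩ closedBall (f 0) (M0 + R)).Nonempty
    refine ⟨(g : G) • f 0, ⟨f 0, rfl, rfl⟩, ?_⟩
    rw [mem_closedBall]
    have h2 := hdist g 0
    have h3 : dist (f (e g 0)) (f 0) ≤ R := by rwa [hf.dist_eq, dist_zero_right]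
    have := dist_triangle ((g : G) • f 0) (f (e g 0)) (f 0)
    linarith
  have hmini := hMINI k Γ e (M0 + r) hcoc
  have hrot := hROT k Γ e hfin hmini
  have hC : ∀ i : Fin k, ∃ C : ℝ, ∀ T : ℝ, ∃ t : ℝ, T ≤ t ∧
      ∃ g : Γ, ‖e g 0 - t • EuclideanSpace.single i (1 : ℝ)‖ ≤ C ∧ IsTr e g (e g 0) := by
    intro i
    obtain ⟨C, hC⟩ := hmini (EuclideanSpace.single i (1 : ℝ)) (1 / 4) (by norm_num)
    refine ⟨C, fun T => ?_⟩
    obtain ⟨t, ht, g, hg1, hg2⟩ := hC T
    refine ⟨t, ht, g, hg1, fun z => ?_⟩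
    have h1 := hrot g hg2 z
    have h2 := (e g).map_vadd 0 z
    simp only [vadd_eq_add, add_zero] at h2
    rw [h2, h1]
  choose C hC using hC
  set C0 : ℝ := ∑ i, |C i| with hC0
  have hC0' : ∀ i, C i ≤ C0 := fun i => (le_abs_self _).trans
    (Finset.single_le_sum (f := fun i => |C i|) (fun i _ => abs_nonneg _) (Finset.mem_univ i))
  choose t ht g hg1 hg2 using fun i => hC i (k * C0 + 1)
  have hlin : LinearIndependent ℝ (fun i => e (g i) 0) :=
    linInd_of_diag _ C0 t (fun i => by linarith [ht i]) fun i => (hg1 i).trans (hC0' i)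
  obtain ⟨φ, b, hφ, hb, hφb⟩ := free_of_translations ((hfin 0).subset (fun g hg => by
    have hg' : e g 0 = 0 := hg
    show ‖e g 0‖ ≤ 0
    rw [hg', norm_zero])) g _ hlin hg2
  refine ⟨Γ.subtype.comp φ, b, Γ.subtype_injective.comp hφ, hb, fun n z => ?_⟩
  have h1 := hdist (φ (Multiplicative.ofAdd n)) z
  rw [hφb n z] at h1
  exact h1

end Pool.Agent.Y34.HB
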