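import Pool.Agent.Y34.HB.Stm3
import Pool.Agent.Y34.HB.Shape

set_option autoImplicit false

universe u v

open Metric Set Filter Topology
open Pool.Agent.TH60.FP

namespace Pool.Agent.Y34.HB

lemma J_add (x y : E 2) : J (x + y) = J x + J y := by
  ext i
  fin_cases i <;> simp [J]
  ring

lemma J_smul (c : ℝ) (x : E 2) : J (c • x) = c • J x := by
  ext i
  fin_cases i <;> simp [J]

lemma J_sq (x : E 2) : ‖J x‖ = ‖x‖ := by
  have h1 : ‖J x‖ ^ 2 = ‖x‖ ^ 2 := by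
    rw [EuclideanSpace.norm_sq_eq, EuclideanSpace.norm_sq_eq]
    simp [J, Fin.sum_univ_two]
    ring
  have h2 : 0 ≤ ‖J x‖ := norm_nonneg _
  have h3 : 0 ≤ ‖x‖ := norm_nonneg _
  nlinarith [sq_nonneg (‖J x‖ - ‖x‖)]

lemma J_inner (x : E 2) : inner ℝ x (J x) = 0 := by
  simp [J, PiLp.inner_apply, Fin.sum_univ_two]
  ring

/-- a continuous midpoint convex function on Euclidean space is convex -/
lemma convexOn_of_midE {k : ℕ} {D : E k → ℝ} (hc : Continuous D)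
    (hm : ∀ x y, D (midpoint ℝ x y) ≤ (D x + D y) / 2) : ConvexOn ℝ univ D := by
  refine ⟨convex_univ, ?_⟩
  intro x _ y _ a b ha hb hab
  have h1 : ConvexOn ℝ univ (fun t : ℝ => D (x + t • (y - x))) := by
    refine convexOn_of_mid (by fun_prop) fun s t => ?_
    have h2 := hm (x + s • (y - x)) (x + t • (y - x))
    have h3 : midpoint ℝ (x + s • (y - x)) (x + t • (y - x)) = x + ((s + t) / 2) • (y - x) := by
      rw [midpoint_eq_smul_add, invOf_eq_inv]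
      module
    rw [h3] at h2
    exact h2
  have h2 := h1.2 (mem_univ (0 : ℝ)) (mem_univ (1 : ℝ)) ha hb hab
  simp only [smul_eq_mul, mul_zero, zero_add, mul_one, zero_smul, add_zero, one_smul] at h2
  have h3 : x + b • (y - x) = a • x + b • y := by
    rw [show a = 1 - b by linarith]
    module
  rw [h3, add_sub_cancel] at h2
  exact h2

/-- a recurrence of a flat which is close on a large ball is close on a cone up to a small
rotation -/
lemma cone_move (hK2 : S_K2) (hASY : S_ASY.{u})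
    {X : Type u} [MetricSpace X] (hX : CN X)
    {f h : E 2 → X} (hf : Isometry f) (hh : Isometry h)
    {u : E 2} (hu : ‖u‖ = 1) {M R0 δ R : ℝ} (hM : 1 < M) (hR0 : 0 < R0) (hδ : 0 < δ)
    (hR : R0 < R)
    (hK1 : ∀ c z : E 2, M ≤ infDist (f z) (range h) → R0 ≤ ‖c - z‖ →
      (∀ z', ‖z' - c‖ < ‖z - c‖ → infDist (f z') (range h) < M) →
      δ * ‖c - z‖ ≤ inner ℝ (c - z) u)
    (hcl : ∀ v : E 2, ‖v‖ ≤ R → dist (f v) (h v) ≤ 1) :
    ∃ A : E 2 ≃ₗᵢ[ℝ] E 2, (∀ v ∈ Cone u δ, ‖A v - v‖ ≤ (2 / R) * ‖v‖) ∧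
      ∀ v ∈ Cone u δ, dist (f v) (h (A v)) ≤ 1 := by
  have hRpos : 0 < R := hR0.trans hR
  have hDc : Continuous fun z => infDist (f z) (range h) :=
    (continuous_infDist_pt _).comp hf.continuous
  have hconv : ConvexOn ℝ univ fun z => infDist (f z) (range h) :=
    convexOn_of_midE hDc (infDist_mid hX hf hh)
  have h1 := hK2 2 _ hDc hconv u M R0 δ R hu hR0 hδ hR hK1 (by
    intro z hz
    have h2 := hcl z hz.le
    have h3 := infDist_le_dist_of_mem (x := f z) (mem_range_self (f := h) z)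
    show infDist (f z) (range h) < M
    linarith)
  obtain ⟨A, hA⟩ := hASY X hX 2 f h hf hh u δ M hu hδ (by
    rintro v ⟨t, ht, hv⟩
    have h2 := h1 t ht (v - t • u) (by linarith)
    rw [add_sub_cancel] at h2
    exact h2.le)
  have hA0 : ∀ v ∈ Cone u δ, dist (f v) (h (A v)) ≤ 1 := by
    intro v hv
    have h2 := hA 0 v hv
    rw [zero_add] at h2
    exact h2.trans (hcl 0 (by rw [norm_zero]; exact hRpos.le))
  refine ⟨A, ?_, hA0⟩
  intro v hv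
  by_cases hv0 : v = 0
  · subst hv0
    simp
  have hvn : 0 < ‖v‖ := norm_pos_iff.2 hv0
  set s : ℝ := R / ‖v‖ with hs
  have hs0 : 0 < s := div_pos hRpos hvn
  have hsv : ‖s • v‖ = R := by
    rw [norm_smul, Real.norm_eq_abs, abs_of_pos hs0, hs]
    field_simp
  have hcone : s • v ∈ Cone u δ := by
    obtain ⟨t, ht, htv⟩ := hv
    refine ⟨s * t, by positivity, ?_⟩
    have : s • v - (s * t) • u = s • (v - t • u) := by module
    rw [this, norm_smul, Real.norm_eq_abs, abs_of_pos hs0]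
    nlinarith
  have h2 := hA0 _ hcone
  have h3 := hcl (s • v) hsv.le
  have h4 : dist (h (A (s • v))) (h (s • v)) ≤ 2 := by
    have := dist_triangle_left (h (A (s • v))) (h (s • v)) (f (s • v))
    linarith
  rw [hh.dist_eq, dist_eq_norm, map_smul, ← smul_sub, norm_smul, Real.norm_eq_abs,
    abs_of_pos hs0, hs, div_mul_eq_mul_div, div_le_iff₀ hvn] at h4
  rw [div_mul_eq_mul_div, le_div_iff₀ hRpos]
  linarith

/-- the main theorem for a closed family of flats -/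
theorem dir (hK1 : S_K1.{u, v}) (hK2 : S_K2) (hASY : S_ASY.{u}) (hROT : S_ROT2) (hNID : S_NID)
    (hCOMM : S_COMM.{u, v}) (hREC : S_REC.{u, v}) (hDEEP : S_DEEP.{u, v})
    {X : Type u} [MetricSpace X] {G : Type v} [Group G] [MulAction G X] (hG : Geo X G)
    (h3 : ∀ f : E 3 → X, ¬ Isometry f) (L : Set (E 2 → X)) (hL : Fam G L)
    (M0 : ℝ) (hM0 : ∀ f ∈ L, ∀ h ∈ L, Near f h → infDist (f 0) (range h) ≤ M0)
    (u : E 2) (hu : ‖u‖ = 1)
    (hyp : ∀ f ∈ L, ∀ h ∈ L, ∀ a : E 2, ‖a‖ = 1 → inner ℝ a u ≤ 0 → NearHalf f h a → Near f h)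
    (f : E 2 → X) (hfL : f ∈ L) : HasZ2 G := by
  have hfi := hL.isom f hfL
  have hisom := hG.isom
  set M := max M0 2 + 1 with hM
  have hMM0 : M0 < M := by have := le_max_left M0 2; linarith
  have hM1 : 1 < M := by have := le_max_right M0 2; linarith
  obtain ⟨R0, δ, hR0, hδ, hkey⟩ := hK1 X G hG 2 L hL u hu hyp M0 hM0 M hMM0
  obtain ⟨C, hC, hnid⟩ := hNID u δ hu hδ
  obtain ⟨η, hη, hcomm⟩ := hCOMM X G f hfi u δ hu hδ
  set ε := min η 1 with hε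
  have hε0 : 0 < ε := lt_min hη one_pos
  have hεη : ε ≤ η := min_le_left _ _
  have hε1 : ε ≤ 1 := min_le_right _ _
  set R := max (R0 + 1) (2 * C / ε) with hR
  have hRR0 : R0 < R := by have := le_max_left (R0 + 1) (2 * C / ε); linarith
  have hRpos : 0 < R := hR0.trans hRR0
  have hRC : C * (2 / R) ≤ ε := by
    have h1 : 2 * C / ε ≤ R := le_max_right _ _
    rw [div_le_iff₀ hε0] at h1
    rw [mul_div_assoc', div_le_iff₀ hRpos]
    linarith
  obtain ⟨m, hm⟩ := hREC X G hG 2 f hfi u R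
  -- the moves
  have hmove : ∀ N : ℕ, ∃ n : ℕ, N ≤ n ∧ ∃ (γ : G) (A : E 2 ≃ₗᵢ[ℝ] E 2),
      (∀ x, ‖A x - x‖ ≤ ε * ‖x‖) ∧
      ∀ v ∈ Cone u δ, dist (γ • f ((m : ℝ) • u + v)) (f ((n : ℝ) • u + A v)) ≤ 1 := by
    intro N
    obtain ⟨n, hn, γ, hγ⟩ := hm N
    have h1 : (fun z => γ • f ((m : ℝ) • u + z)) ∈ L := hL.smul _ (hL.trans _ hfL _) γ
    have h2 : (fun z => f ((n : ℝ) • u + z)) ∈ L := hL.trans _ hfL _
    obtain ⟨A, hA1, hA2⟩ := cone_move hK2 hASY hG.cn (hL.isom _ h1) (hL.isom _ h2) hu hM1 hR0 hδ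
      hRR0 (hkey _ h1 _ h2) hγ
    refine ⟨n, hn, γ, A, fun x => ?_, hA2⟩
    have h4 := hnid A (2 / R) hA1 x
    exact h4.trans (mul_le_mul_of_nonneg_right hRC (norm_nonneg _))
  obtain ⟨n₁, hn₁, γ₁, A₁, hA₁, hγ₁⟩ := hmove (m + 2)
  have hn₁' : (m : ℝ) + 2 ≤ n₁ := by exact_mod_cast hn₁
  by_cases hone : ∀ x, A₁ x = x
  · -- a translation on the cone
    refine hDEEP X G hG h3 f hfi u δ hu hδ γ₁ ((m : ℝ) • u) (((n₁ : ℝ) - m) • u) 1 ?_ ?_
    · rw [norm_smul, hu, Real.norm_eq_abs, abs_of_nonneg (by linarith)]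
      linarith
    · intro v hv
      have h4 := hγ₁ v hv
      rw [hone] at h4
      rw [show (m : ℝ) • u + v + ((n₁ : ℝ) - m) • u = (n₁ : ℝ) • u + v by module]
      exact h4
  obtain ⟨c₁, s₁, hcs₁, hrot₁⟩ := hROT A₁ (fun x => (hA₁ x).trans (by
    have := norm_nonneg x
    nlinarith))
  set κ : ℝ := Real.sqrt ((c₁ - 1) ^ 2 + s₁ ^ 2) with hκ
  have hκ0 : 0 < κ := by
    apply Real.sqrt_pos.2
    by_contra hc
    push Not at hc
    apply hone
    have h4 : (c₁ - 1) ^ 2 = 0 := by nlinarith [sq_nonneg (c₁ - 1), sq_nonneg s₁]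
    have h5 : s₁ ^ 2 = 0 := by nlinarith [sq_nonneg (c₁ - 1), sq_nonneg s₁]
    have h6 : c₁ = 1 := by
      have := pow_eq_zero_iff two_ne_zero |>.1 h4
      linarith
    have h7 : s₁ = 0 := pow_eq_zero_iff two_ne_zero |>.1 h5
    intro x
    rw [hrot₁, h6, h7]
    simp
  have hκn : ∀ x, ‖A₁ x - x‖ = κ * ‖x‖ := by
    intro x
    have h4 : A₁ x - x = (c₁ - 1) • x + s₁ • J x := by
      rw [hrot₁]
      module
    have h5 : ‖A₁ x - x‖ ^ 2 = (κ * ‖x‖) ^ 2 := by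
      have h6 : κ ^ 2 = (c₁ - 1) ^ 2 + s₁ ^ 2 := Real.sq_sqrt (by positivity)
      rw [h4, norm_add_sq_real, norm_smul, norm_smul, J_sq, real_inner_smul_left,
        real_inner_smul_right, J_inner, mul_pow κ, h6, mul_pow, mul_pow, Real.norm_eq_abs,
        Real.norm_eq_abs, sq_abs, sq_abs]
      ring
    have h6 : 0 ≤ κ * ‖x‖ := by positivity
    exact (pow_left_inj₀ (norm_nonneg _) h6 two_ne_zero).1 h5
  obtain ⟨N, hN⟩ := exists_nat_gt ((m : ℝ) + ((n₁ : ℝ) + m + 4) / κ)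
  obtain ⟨n₂, hn₂, γ₂, A₂, hA₂, hγ₂⟩ := hmove N
  have hn₂' : (m : ℝ) + ((n₁ : ℝ) + m + 4) / κ < n₂ := lt_of_lt_of_le hN (by exact_mod_cast hn₂)
  obtain ⟨c₂, s₂, hcs₂, hrot₂⟩ := hROT A₂ (fun x => (hA₂ x).trans (by
    have := norm_nonneg x
    nlinarith))
  obtain ⟨v₀, hv₀⟩ := hcomm γ₁ γ₂ ((m : ℝ) • u) ((m : ℝ) • u) ((n₁ : ℝ) • u) ((n₂ : ℝ) • u)
    A₁ A₂ 1 (fun x => (hA₁ x).trans (mul_le_mul_of_nonneg_right hεη (norm_nonneg _)))
    (fun x => (hA₂ x).trans (mul_le_mul_of_nonneg_right hεη (norm_nonneg _)))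
    (fun x => by
      rw [hrot₂, hrot₁, hrot₁ x, hrot₂, J_add, J_add, J_smul, J_smul, J_smul, J_smul]
      module) hγ₁ hγ₂
  set b₁ : E 2 := (n₁ : ℝ) • u - A₁ ((m : ℝ) • u) with hb₁
  set b₂ : E 2 := (n₂ : ℝ) • u - A₂ ((m : ℝ) • u) with hb₂
  have hm0 : (0 : ℝ) ≤ m := Nat.cast_nonneg m
  have hn0 : (0 : ℝ) ≤ n₁ := Nat.cast_nonneg n₁
  have hn20 : (0 : ℝ) ≤ n₂ := Nat.cast_nonneg n₂
  have hb₁n : ‖b₁‖ ≤ n₁ + m := by
    refine (norm_sub_le _ _).trans ?_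
    rw [LinearIsometryEquiv.norm_map, norm_smul, norm_smul, hu, Real.norm_eq_abs,
      Real.norm_eq_abs, abs_of_nonneg hm0, abs_of_nonneg hn0]
    linarith
  have hb₂n : (n₂ : ℝ) - m ≤ ‖b₂‖ := by
    have h4 := norm_sub_norm_le ((n₂ : ℝ) • u) (A₂ ((m : ℝ) • u))
    rw [LinearIsometryEquiv.norm_map, norm_smul, norm_smul, hu, Real.norm_eq_abs,
      Real.norm_eq_abs, abs_of_nonneg hm0, abs_of_nonneg hn20] at h4
    linarith
  refine hDEEP X G hG h3 f hfi u (δ / 2) hu (by positivity) _ v₀ _ (4 * 1) ?_ hv₀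
  have h4 : A₁ b₂ + b₁ - (A₂ b₁ + b₂) = (A₁ b₂ - b₂) - (A₂ b₁ - b₁) := by abel
  rw [h4]
  have h5 := norm_sub_norm_le (A₁ b₂ - b₂) (A₂ b₁ - b₁)
  have h6 := hκn b₂
  have h7 : ‖A₂ b₁ - b₁‖ ≤ n₁ + m := by
    refine (hA₂ b₁).trans ?_
    have := norm_nonneg b₁
    nlinarith
  have h8 : κ * ((n₂ : ℝ) - m) ≤ κ * ‖b₂‖ := mul_le_mul_of_nonneg_left hb₂n hκ0.le
  have h9 : (n₁ : ℝ) + m + 4 < κ * ((n₂ : ℝ) - m) := by
    have h10 : ((n₁ : ℝ) + m + 4) / κ < n₂ - m := by linarith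
    rw [div_lt_iff₀ hκ0] at h10
    linarith
  linarith

end Pool.Agent.Y34.HB
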