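import Pool.Agent.Y34.HB.Stm2

set_option autoImplicit false

universe u v

open Metric Set Filter Topology
open Pool.Agent.TH60.FP

namespace Pool.Agent.Y34.HB

/-- a half-plane invariant under a translation along its boundary gives `ℤ²` -/
theorem of_periodic (hWIDE : S_WIDE.{u, v})
    {X : Type u} [MetricSpace X] {G : Type v} [Group G] [MulAction G X] (hG : Geo X G)
    (g : G) (τ : ℝ) (hτ : 0 < τ) (c : ℝ → X) (H : ℝ × NNReal → X) (hH : H ∈ HP c)
    (hper : ∀ t s, g • H (t, s) = H (t + τ, s)) : HasZ2 G := by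
  refine hWIDE X G hG τ hτ fun m => ⟨g, fun t s => H (t, s.toNNReal), ?_, fun t s _ _ =>
    hper t _⟩
  intro t s t' s' h0 _ h1 _
  rw [hH.1]
  simp only [Real.coe_toNNReal s h0, Real.coe_toNNReal s' h1]

/-- if an axis of `g` bounds at least one and at most countably many half-planes then some power of
`g` has an invariant half-plane -/
theorem halfplanes (hPERPT : S_PERPT.{u}) (hHPC : S_HPC.{u})
    {X : Type u} [MetricSpace X] {G : Type v} [Group G] [MulAction G X] (hG : Geo X G)
    (g : G) (τ : ℝ) (c : ℝ → X) (hc : Axis g τ c) :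
    (∃ n : ℕ, 0 < n ∧ ∃ H ∈ HP c, ∀ t s, g ^ n • H (t, s) = H (t + n * τ, s)) ∨ HP c = ∅ ∨
      ∃ Φ : (ℕ → Bool) → (ℝ × NNReal → X), Function.Injective Φ ∧ ∀ x, Φ x ∈ HP c := by
  have := hG.proper
  have := hG.isom
  obtain ⟨hcomp, hunc⟩ := hHPC X c hc.1
  rcases (HP c).eq_empty_or_nonempty with he | ⟨H0, hH0⟩
  · exact Or.inr (Or.inl he)
  by_cases hct : (HP c).Countable
  swap
  · exact Or.inr (Or.inr (hunc hct))
  left
  -- the action of `g` on the half-planes
  have hF : ∀ H ∈ HP c, (fun p : ℝ × NNReal => g • H (p.1 - τ, p.2)) ∈ HP c := by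
    rintro H ⟨h1, h2⟩
    refine ⟨fun p q => ?_, fun t => ?_⟩
    · rw [dist_smul, h1]
      simp only
      ring
    · show g • H (t - τ, 0) = c t
      rw [h2, hc.2, sub_add_cancel]
  have hinv : ∀ t, g⁻¹ • c (t + τ) = c t := by
    intro t
    rw [← hc.2, inv_smul_smul]
  have hB : ∀ H ∈ HP c, (fun p : ℝ × NNReal => g⁻¹ • H (p.1 + τ, p.2)) ∈ HP c := by
    rintro H ⟨h1, h2⟩
    refine ⟨fun p q => ?_, fun t => ?_⟩
    · rw [dist_smul, h1]
      simp only
      ring
    · show g⁻¹ • H (t + τ, 0) = c t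
      rw [h2, hinv]
  let T : HP c ≃ₜ HP c :=
    { toFun := fun H => ⟨fun p => g • H.1 (p.1 - τ, p.2), hF H.1 H.2⟩
      invFun := fun H => ⟨fun p => g⁻¹ • H.1 (p.1 + τ, p.2), hB H.1 H.2⟩
      left_inv := fun H => by
        apply Subtype.ext
        funext p
        simp
      right_inv := fun H => by
        apply Subtype.ext
        funext p
        simp
      continuous_toFun := by
        refine Continuous.subtype_mk (continuous_pi fun p => ?_) _
        exact ((continuous_apply (p.1 - τ, p.2)).comp continuous_subtype_val).const_smul g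
      continuous_invFun := by
        refine Continuous.subtype_mk (continuous_pi fun p => ?_) _
        exact ((continuous_apply (p.1 + τ, p.2)).comp continuous_subtype_val).const_smul g⁻¹ }
  have : CompactSpace (HP c) := isCompact_iff_compactSpace.1 hcomp
  have : Nonempty (HP c) := ⟨⟨H0, hH0⟩⟩
  have : Countable (HP c) := hct.to_subtype
  obtain ⟨n, H, hn, hH⟩ := hPERPT (HP c) T
  have hit : ∀ (m : ℕ) (K : HP c) (p : ℝ × NNReal),
      ((T^[m]) K).1 p = g ^ m • K.1 (p.1 - m * τ, p.2) := by
    intro m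
    induction m with
    | zero =>
      intro K p
      simp
    | succ m ih =>
      intro K p
      rw [Function.iterate_succ_apply, ih]
      show g ^ m • (g • K.1 (p.1 - m * τ - τ, p.2)) = _
      rw [← mul_smul, ← pow_succ]
      congr 2
      push_cast
      ring_nf
  have hper : ∀ t s, g ^ n • H.1 (t, s) = H.1 (t + n * τ, s) := by
    intro t s
    have h1 := hit n H (t + n * τ, s)
    rw [hH] at h1
    rw [h1]
    simp
  exact ⟨n, hn, H.1, H.2, hper⟩

end Pool.Agent.Y34.HB
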