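import Pool.Agent.Y34.HB.Stm

/-!
# Project HP (owner helper34): flat strips and half-planes along axes

`G` acts geometrically on the proper CAT(0) space `X`, `g` is an element of `G` with an axis.
Part R4: a flat strip of width larger than `A exp (A τ)` on which `g` is the translation by `τ`
along the strip forces `ℤ²`.  Part R2: if the axis bounds at least one and at most countably many
flat half-planes then `ℤ²` is a subgroup.

Every `def S_... : Prop` is the statement of one part.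
-/

set_option autoImplicit false

universe u v

open Metric Set Filter Topology
open Pool.Agent.TH60.FP

namespace Pool.Agent.Y34.HB

/-- `S` is (on the set `0 ≤ s ≤ W`) a flat strip of width `W`; the first coordinate is the one along
the strip -/
def Strip {X : Type u} [MetricSpace X] (S : ℝ → ℝ → X) (W : ℝ) : Prop :=
  ∀ t s t' s', 0 ≤ s → s ≤ W → 0 ≤ s' → s' ≤ W →
    dist (S t s) (S t' s') ^ 2 = (t - t') ^ 2 + (s - s') ^ 2

/-- `c` is an axis of `g` with translation length `τ` -/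
def Axis {X : Type u} [MetricSpace X] {G : Type v} [Group G] [MulAction G X] (g : G) (τ : ℝ)
    (c : ℝ → X) : Prop := Isometry c ∧ ∀ t, g • c t = c (t + τ)

/-- `ℤ²` is a subgroup of `G` -/
def HasZ2 (G : Type v) [Group G] : Prop :=
  ∃ φ : Multiplicative (ℤ × ℤ) →* G, Function.Injective φ

/-- WIDE: invariant strips of unbounded width with the same period give `ℤ²` -/
def S_WIDE : Prop := ∀ (X : Type u) [MetricSpace X] (G : Type v) [Group G] [MulAction G X],
  Geo X G → ∀ τ : ℝ, 0 < τ →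
  (∀ n : ℕ, ∃ (g : G) (S : ℝ → ℝ → X), Strip S n ∧
    ∀ t s : ℝ, 0 ≤ s → s ≤ n → g • S t s = S (t + τ) s) → HasZ2 G

/-- INV: two axes of `g` bound a flat strip, `g` is a translation of this strip -/
def S_INV : Prop := ∀ (X : Type u) [MetricSpace X] (G : Type v) [Group G] [MulAction G X],
  Geo X G → ∀ (g : G) (τ : ℝ), 0 < τ → ∀ c c' : ℝ → X, Axis g τ c → Axis g τ c' →
  ∃ (S : ℝ → ℝ → X) (o : ℝ), Strip S (DD c c') ∧ (∀ t, S t 0 = c t) ∧
    (∀ t, S t (DD c c') = c' (t + o)) ∧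
    (∀ t s, 0 ≤ s → s ≤ DD c c' → g • S t s = S (t + τ) s) ∧
    ∀ (t : ℝ) (x : X), dist x (S t (DD c c' / 2)) ^ 2 ≤
      (dist x (c t) ^ 2 + dist x (c' (t + o)) ^ 2) / 2 - DD c c' ^ 2 / 4

/-- GROW: orbits grow at most exponentially -/
def S_GROW : Prop := ∀ (X : Type u) [MetricSpace X] (G : Type v) [Group G] [MulAction G X],
  Geo X G → ∀ x0 : X, ∃ A : ℝ, 0 < A ∧ ∀ R : ℝ, 0 ≤ R →
    {γ : G | dist (γ • x0) x0 ≤ R}.Finite ∧
    (({γ : G | dist (γ • x0) x0 ≤ R}.ncard : ℕ) : ℝ) ≤ Real.exp (A * (R + 1))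

/-- CENT: an axis of `g` which is almost fixed by the centraliser of `g` -/
def S_CENT : Prop := ∀ (X : Type u) [MetricSpace X] (G : Type v) [Group G] [MulAction G X],
  Geo X G → ∀ (g : G) (τ : ℝ), 0 < τ → ∀ c : ℝ → X, Axis g τ c →
  ∀ B : ℝ, (∀ h : G, Commute g h → DD c (fun t => h • c t) ≤ B) → ∀ η : ℝ, 0 < η →
  ∃ c' : ℝ → X, Axis g τ c' ∧ ∀ h : G, Commute g h → DD c' (fun t => h • c' t) ≤ η

/-- PERPT: a homeomorphism of a countable compact Hausdorff space has a periodic point -/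
def S_PERPT : Prop := ∀ (Q : Type u) [TopologicalSpace Q] [CompactSpace Q] [T2Space Q]
  [Nonempty Q] [Countable Q] (T : Q ≃ₜ Q), ∃ (n : ℕ) (x : Q), 0 < n ∧ (T^[n]) x = x

/-- the flat half-planes bounded by the line `c` -/
def HP {X : Type u} [MetricSpace X] (c : ℝ → X) : Set (ℝ × NNReal → X) :=
  {H | (∀ p q : ℝ × NNReal, dist (H p) (H q) ^ 2 = (p.1 - q.1) ^ 2 + ((p.2 : ℝ) - q.2) ^ 2) ∧
    ∀ t : ℝ, H (t, 0) = c t}

/-- HPC: the space of half-planes is compact, and if it is uncountable it contains a copy of the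
Cantor set -/
def S_HPC : Prop := ∀ (X : Type u) [MetricSpace X] [ProperSpace X] (c : ℝ → X), Isometry c →
  IsCompact (HP c) ∧ (¬ (HP c).Countable →
    ∃ Φ : (ℕ → Bool) → (ℝ × NNReal → X), Function.Injective Φ ∧ ∀ x, Φ x ∈ HP c)

end Pool.Agent.Y34.HB
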