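import Pool.Agent.Y34.HB.Stm2

/-!
# Project HQ (owner helper34): the branching directions of flats positively span the plane

`G` acts geometrically on the proper CAT(0) space `X` without flats of dimension three and `L` is a
closed family of flat planes invariant under `G` and under translations.  If the flats of `L` branch
along half-planes `⟪a, z⟫ ≥ 0` only for unit vectors `a` with `⟪a, u⟫ > 0`, for one fixed `u`, then
`G` contains `ℤ²`.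

Every `def S_... : Prop` is the statement of one part.
-/

set_option autoImplicit false

universe u v

open Metric Set Filter Topology
open Pool.Agent.TH60.FP

namespace Pool.Agent.Y34.HB

/-- the closed cone around the unit vector `u` -/
def Cone {k : ℕ} (u : E k) (δ : ℝ) : Set (E k) := {v | ∃ t : ℝ, 0 ≤ t ∧ ‖v - t • u‖ ≤ δ * t}

/-- K2: a region of convexity whose boundary is seen from deep inside only in directions `-a` with
`⟪a, u⟫ ≥ δ` contains a cone (Mathlib only) -/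
def S_K2 : Prop := ∀ (k : ℕ) (D : E k → ℝ), Continuous D → ConvexOn ℝ univ D →
  ∀ (u : E k) (M R0 δ R : ℝ), ‖u‖ = 1 → 0 < R0 → 0 < δ → R0 < R →
  (∀ c z : E k, M ≤ D z → R0 ≤ ‖c - z‖ → (∀ z', ‖z' - c‖ < ‖z - c‖ → D z' < M) →
    δ * ‖c - z‖ ≤ inner ℝ (c - z) u) →
  (∀ z, ‖z‖ < R → D z < M) →
  ∀ t : ℝ, 0 ≤ t → ∀ v : E k, ‖v‖ < R + δ * t → D (t • u + v) < M

/-- ASY: flats which are close along a cone are close as parametrised flats -/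
def S_ASY : Prop := ∀ (X : Type u) [MetricSpace X], CN X →
  ∀ (k : ℕ) (f h : E k → X), Isometry f → Isometry h →
  ∀ (u : E k) (δ M : ℝ), ‖u‖ = 1 → 0 < δ →
  (∀ v ∈ Cone u δ, infDist (f v) (range h) ≤ M) →
  ∃ A : E k ≃ₗᵢ[ℝ] E k, ∀ w : E k, ∀ v ∈ Cone u δ, dist (f v) (h (w + A v)) ≤ dist (f 0) (h w)

/-- rotation by a right angle -/
noncomputable def J (x : E 2) : E 2 := !₂[-x 1, x 0]

/-- ROT2: linear isometries of the plane close to the identity are rotations (Mathlib only) -/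
def S_ROT2 : Prop := ∀ A : E 2 ≃ₗᵢ[ℝ] E 2, (∀ x, ‖A x - x‖ ≤ ‖x‖) →
  ∃ c s : ℝ, c ^ 2 + s ^ 2 = 1 ∧ ∀ x, A x = c • x + s • J x

/-- NID: a linear isometry which almost fixes the vectors of a cone almost fixes all vectors
(Mathlib only) -/
def S_NID : Prop := ∀ (u : E 2) (δ : ℝ), ‖u‖ = 1 → 0 < δ → ∃ C : ℝ, 0 < C ∧
  ∀ (A : E 2 ≃ₗᵢ[ℝ] E 2) (η : ℝ), (∀ v ∈ Cone u δ, ‖A v - v‖ ≤ η * ‖v‖) →
    ∀ x, ‖A x - x‖ ≤ C * η * ‖x‖

/-- COMM: the commutator of two elements which move the flat `f` along itself by a small rotation,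
on a cone, is a translation of the flat, on a cone (Mathlib only) -/
def S_COMM : Prop := ∀ (X : Type u) [MetricSpace X] (G : Type v) [Group G] [MulAction G X]
  [IsIsometricSMul G X] (f : E 2 → X), Isometry f →
  ∀ (u : E 2) (δ : ℝ), ‖u‖ = 1 → 0 < δ → ∃ η : ℝ, 0 < η ∧
  ∀ (γ₁ γ₂ : G) (p₁ p₂ q₁ q₂ : E 2) (A₁ A₂ : E 2 ≃ₗᵢ[ℝ] E 2) (B : ℝ),
    (∀ x, ‖A₁ x - x‖ ≤ η * ‖x‖) → (∀ x, ‖A₂ x - x‖ ≤ η * ‖x‖) →
    (∀ x, A₁ (A₂ x) = A₂ (A₁ x)) →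
    (∀ v ∈ Cone u δ, dist (γ₁ • f (p₁ + v)) (f (q₁ + A₁ v)) ≤ B) →
    (∀ v ∈ Cone u δ, dist (γ₂ • f (p₂ + v)) (f (q₂ + A₂ v)) ≤ B) →
    ∃ v₀ : E 2, ∀ v ∈ Cone u (δ / 2),
      dist ((γ₁ * γ₂ * γ₁⁻¹ * γ₂⁻¹) • f (v₀ + v))
        (f (v₀ + v + ((A₁ (q₂ - A₂ p₂) + (q₁ - A₁ p₁)) -
          (A₂ (q₁ - A₁ p₁) + (q₂ - A₂ p₂))))) ≤ 4 * B

/-- DEEP: an element which is coarsely a nontrivial translation of a flat plane on a cone gives
`ℤ²` -/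
def S_DEEP : Prop := ∀ (X : Type u) [MetricSpace X] (G : Type v) [Group G] [MulAction G X],
  Geo X G → (∀ f : E 3 → X, ¬ Isometry f) → ∀ f : E 2 → X, Isometry f →
  ∀ (u : E 2) (δ : ℝ), ‖u‖ = 1 → 0 < δ →
  ∀ (g : G) (v₀ τ : E 2) (B : ℝ), B < ‖τ‖ →
    (∀ v ∈ Cone u δ, dist (g • f (v₀ + v)) (f (v₀ + v + τ)) ≤ B) → HasZ2 G

/-- K1: for flats without branching directions `a` with `⟪a, u⟫ ≤ 0` the boundary of the region
where two of them are close is seen from deep inside in directions `-a` with `⟪a, u⟫ ≥ δ` -/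
def S_K1 : Prop := ∀ (X : Type u) [MetricSpace X] (G : Type v) [Group G] [MulAction G X],
  Geo X G → ∀ (k : ℕ) (L : Set (E k → X)), Fam G L → ∀ u : E k, ‖u‖ = 1 →
  (∀ f ∈ L, ∀ h ∈ L, ∀ a : E k, ‖a‖ = 1 → inner ℝ a u ≤ 0 → NearHalf f h a → Near f h) →
  ∀ M0 : ℝ, (∀ f ∈ L, ∀ h ∈ L, Near f h → infDist (f 0) (range h) ≤ M0) →
  ∀ M : ℝ, M0 < M → ∃ R0 δ : ℝ, 0 < R0 ∧ 0 < δ ∧ ∀ f ∈ L, ∀ h ∈ L, ∀ c z : E k,
    M ≤ infDist (f z) (range h) → R0 ≤ ‖c - z‖ →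
    (∀ z', ‖z' - c‖ < ‖z - c‖ → infDist (f z') (range h) < M) →
    δ * ‖c - z‖ ≤ inner ℝ (c - z) u

/-- REC: recurrence of a flat along a ray -/
def S_REC : Prop := ∀ (X : Type u) [MetricSpace X] (G : Type v) [Group G] [MulAction G X],
  Geo X G → ∀ (k : ℕ) (f : E k → X), Isometry f → ∀ (u : E k) (R : ℝ),
  ∃ m : ℕ, ∀ N : ℕ, ∃ n : ℕ, N ≤ n ∧ ∃ γ : G, ∀ v : E k, ‖v‖ ≤ R →
    dist (γ • f ((m : ℝ) • u + v)) (f ((n : ℝ) • u + v)) ≤ 1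

end Pool.Agent.Y34.HB
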