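import Pool.Agent.Y34.HB.Stm2
import Pool.Agent.TH60.FP.Strip
import Pool.Agent.TH60.FP.Trans
import Pool.Agent.TH60.FP.Mid
import Pool.Agent.TH60.FP.Dist

set_option autoImplicit false

universe u v

open Metric Set Filter Topology
open Pool.Agent.TH60.FP

namespace Pool.Agent.Y34.HB

section Wide

variable {X : Type u} [MetricSpace X] {G : Type v} [Group G] [MulAction G X]

lemma isom_of_strip {S : ℝ → ℝ → X} {W s : ℝ} (h : Strip S W) (h0 : 0 ≤ s) (h1 : s ≤ W) :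
    Isometry (fun t => S t s) := by
  refine Isometry.of_dist_eq fun t t' => ?_
  have h2 := h t s t' s h0 h1 h0 h1
  rw [sub_self, zero_pow two_ne_zero, add_zero] at h2
  rw [Real.dist_eq]
  rw [← sq_abs (t - t')] at h2
  exact (sq_eq_sq₀ dist_nonneg (abs_nonneg _)).1 h2

lemma dd_strip {S : ℝ → ℝ → X} {W s s' : ℝ} (h : Strip S W) (h0 : 0 ≤ s) (h1 : s ≤ W)
    (h2 : 0 ≤ s') (h3 : s' ≤ W) : DD (fun t => S t s) (fun t => S t s') = |s - s'| := by
  have hsy : Sy (fun t => S t s) (fun t => S t s') := by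
    intro t t'
    simp only
    rw [h t s t' s' h0 h1 h2 h3, h 0 s 0 s' h0 h1 h2 h3]
    ring
  rw [Dist.dd_sy hsy]
  have h4 := h 0 s 0 s' h0 h1 h2 h3
  rw [sub_self, zero_pow two_ne_zero, zero_add, ← sq_abs (s - s')] at h4
  exact (sq_eq_sq₀ dist_nonneg (abs_nonneg _)).1 h4

/-- two axes of the same element are parallel -/
lemma axis_par [IsIsometricSMul G X] {g : G} {τ : ℝ} (hτ : 0 < τ) {c c' : ℝ → X}
    (hc : Axis g τ c) (hc' : Axis g τ c') : Par c c' := by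
  have hcont : Continuous fun t => dist (c t) (c' t) := hc.1.continuous.dist hc'.1.continuous
  obtain ⟨B, hB⟩ := (isCompact_Icc (a := (0 : ℝ)) (b := τ)).bddAbove_image hcont.continuousOn
  have hp : Function.Periodic (fun t => dist (c t) (c' t)) τ := by
    intro t
    show dist (c (t + τ)) (c' (t + τ)) = _
    rw [← hc.2, ← hc'.2, dist_smul]
  refine ⟨B, fun t => ?_⟩
  obtain ⟨y, hy, hy2⟩ := hp.exists_mem_Ico₀ hτ t
  have h1 : dist (c t) (c' t) = dist (c y) (c' y) := hy2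
  rw [h1]
  exact hB ⟨y, ⟨hy.1, hy.2.le⟩, rfl⟩

lemma axis_comm {g h : G} {τ : ℝ} {c : ℝ → X} [IsIsometricSMul G X] (hc : Axis g τ c)
    (hh : Commute g h) : Axis g τ (fun t => h • c t) := by
  refine ⟨(isometry_smul X h).comp hc.1, fun t => ?_⟩
  show g • h • c t = h • c (t + τ)
  rw [← mul_smul, hh.eq, mul_smul, hc.2]

lemma DD_le_dist (c c' : ℝ → X) (t : ℝ) : DD c c' ≤ dist (c 0) (c' t) :=
  infDist_le_dist_of_mem (mem_range_self t)

lemma DD_smul' [IsIsometricSMul G X] (a : G) (c c' : ℝ → X) :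
    DD (fun t => a • c t) (fun t => a • c' t) = DD c c' := by
  unfold DD
  have h1 : range (fun t => a • c' t) = (fun x => a • x) '' range c' := by
    rw [← range_comp]
    rfl
  rw [h1]
  exact infDist_image (isometry_smul X a)

/-- a flat strip which is wide compared with its period forces arbitrarily wide ones for the same
element -/
theorem wide (hINV : S_INV.{u, v}) (hGROW : S_GROW.{u, v}) (hCENT : S_CENT.{u, v})
    (hG : Geo X G) :
    ∃ A : ℝ, 0 < A ∧ ∀ (g : G) (τ W : ℝ) (S : ℝ → ℝ → X), 0 < τ → Strip S W →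
      (∀ t s, 0 ≤ s → s ≤ W → g • S t s = S (t + τ) s) → A * Real.exp (A * τ) < W →
      ∀ n : ℕ, ∃ S' : ℝ → ℝ → X, Strip S' n ∧
        ∀ t s : ℝ, 0 ≤ s → s ≤ n → g • S' t s = S' (t + τ) s := by
  have := hG.proper
  have := hG.isom
  have hX := hG.cn
  have hst : C_STRIP.{u} := t_strip
  have hdd : C_DD.{u} := t_dd t_strip (t_trans t_strip) (t_mid t_strip)
  obtain ⟨-, hsymm, htri, -, -⟩ := hdd X hX
  rcases isEmpty_or_nonempty X with hE | ⟨⟨x0⟩⟩
  · exact ⟨1, one_pos, fun g τ W S _ _ _ _ => (hE.false (S 0 0)).elim⟩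
  obtain ⟨r, hr0, hr⟩ : ∃ r : ℝ, 0 ≤ r ∧ ∀ x : X, ∃ h : G, dist (h • x0) x ≤ r := by
    obtain ⟨K, hK, hKc⟩ := hG.cc
    obtain ⟨r, hr⟩ := hK.isBounded.subset_closedBall x0
    refine ⟨max r 0, le_max_right _ _, fun x => ?_⟩
    obtain ⟨g, hg⟩ := hKc x
    refine ⟨g⁻¹, ?_⟩
    rw [← dist_smul g, smul_inv_smul, dist_comm]
    exact (mem_closedBall.1 (hr hg)).trans (le_max_left _ _)
  obtain ⟨A0, hA0, hN⟩ := hGROW X G hG x0
  set D0 : ℝ := 2 * r + 2 with hD0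
  set A : ℝ := 2 * D0 * (Real.exp (A0 * (2 * r + 1)) + 2) + A0 with hA
  have hA1 : A0 ≤ A := by
    have : 0 ≤ 2 * D0 * (Real.exp (A0 * (2 * r + 1)) + 2) := by positivity
    linarith
  have hApos : 0 < A := lt_of_lt_of_le hA0 hA1
  refine ⟨A, hApos, fun g τ W S hτ hS hgS hW => ?_⟩
  by_contra hZ
  push Not at hZ
  obtain ⟨n0, hZ⟩ := hZ
  -- the numbers
  obtain ⟨hfin, hcard⟩ := hN (τ + 2 * r) (by positivity)
  set N : ℕ := {γ : G | dist (γ • x0) x0 ≤ τ + 2 * r}.ncard with hNdef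
  have hNW : D0 * N ≤ W / 2 := by
    have h1 : (N : ℝ) ≤ Real.exp (A0 * (2 * r + 1)) * Real.exp (A0 * τ) := by
      rw [← Real.exp_add]
      refine hcard.trans (le_of_eq ?_)
      congr 1
      ring
    have h2 : Real.exp (A0 * τ) ≤ Real.exp (A * τ) := Real.exp_le_exp.2 (by nlinarith)
    have h3 : 2 * D0 * Real.exp (A0 * (2 * r + 1)) ≤ A := by
      have : 0 ≤ D0 := by positivity
      linarith
    have h4 : 2 * D0 * N ≤ A * Real.exp (A * τ) := by
      have e1 : 2 * D0 * N ≤ 2 * D0 * (Real.exp (A0 * (2 * r + 1)) * Real.exp (A0 * τ)) := by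
        gcongr
      have e2 : 2 * D0 * (Real.exp (A0 * (2 * r + 1)) * Real.exp (A0 * τ)) ≤
          A * Real.exp (A * τ) := by
        rw [← mul_assoc]
        exact mul_le_mul h3 h2 (Real.exp_pos _).le hApos.le
      exact e1.trans e2
    linarith
  have hW0 : 0 < W := lt_trans (by positivity) hW
  -- the axes
  set c0 : ℝ → X := fun t => S t 0 with hc0
  set c1 : ℝ → X := fun t => S t W with hc1
  have ax0 : Axis g τ c0 := ⟨isom_of_strip hS le_rfl hW0.le, fun t => hgS t 0 le_rfl hW0.le⟩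
  have ax1 : Axis g τ c1 := ⟨isom_of_strip hS hW0.le le_rfl, fun t => hgS t W hW0.le le_rfl⟩
  have hDDW : DD c0 c1 = W := by
    rw [hc0, hc1, dd_strip hS le_rfl hW0.le hW0.le le_rfl, zero_sub, abs_neg, abs_of_pos hW0]
  -- bounded orbit of the centraliser
  obtain ⟨B, hB⟩ : ∃ B : ℝ, ∀ h : G, Commute g h → DD c0 (fun t => h • c0 t) ≤ B := by
    by_contra hcon
    push Not at hcon
    obtain ⟨h, hh, hn⟩ := hcon n0
    obtain ⟨S', o, h1, -, -, h2, -⟩ := hINV X G hG g τ hτ c0 _ ax0 (axis_comm ax0 hh)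
    obtain ⟨t, s, b1, b2, b3⟩ := hZ S' fun t s t' s' a1 a2 a3 a4 =>
      h1 t s t' s' a1 (a2.trans hn.le) a3 (a4.trans hn.le)
    exact b3 (h2 t s b1 (b2.trans hn.le))
  obtain ⟨c', ax', hc'⟩ := hCENT X G hG g τ hτ c0 ax0 B hB 1 one_pos
  -- a far axis
  obtain ⟨l, axl, hl⟩ : ∃ l : ℝ → X, Axis g τ l ∧ W / 2 ≤ DD c' l := by
    have h1 := htri c0 c' c1 ax0.1 ax'.1 ax1.1 (axis_par hτ ax0 ax') (axis_par hτ ax' ax1)
    have h2 := hsymm c0 c' ax0.1 ax'.1 (axis_par hτ ax0 ax')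
    rw [hDDW] at h1
    rcases le_or_gt (W / 2) (DD c' c1) with h3 | h3
    · exact ⟨c1, ax1, h3⟩
    · exact ⟨c0, ax0, by linarith⟩
  obtain ⟨S', o, hS', hS0, -, hgS', -⟩ := hINV X G hG g τ hτ c' l ax' axl
  set L := DD c' l with hL
  have hD0pos : 0 < D0 := by positivity
  have hsj : ∀ j : Fin (N + 1), 0 ≤ (j : ℝ) * D0 ∧ (j : ℝ) * D0 ≤ L := by
    intro j
    have h1 : (j : ℝ) ≤ N := by exact_mod_cast Nat.lt_succ_iff.1 j.2
    refine ⟨by positivity, ?_⟩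
    have : (j : ℝ) * D0 ≤ N * D0 := by gcongr
    linarith
  choose h hh using fun j : Fin (N + 1) => hr (S' 0 ((j : ℝ) * D0))
  have hγ : ∀ j, (h j)⁻¹ * g * h j ∈ {γ : G | dist (γ • x0) x0 ≤ τ + 2 * r} := by
    intro j
    show dist (((h j)⁻¹ * g * h j) • x0) x0 ≤ τ + 2 * r
    rw [← dist_smul (h j), mul_smul, mul_smul, smul_inv_smul]
    have h1 : dist (g • h j • x0) (g • S' 0 ((j : ℝ) * D0)) ≤ r := by
      rw [dist_smul]
      exact hh j
    have h2 : dist (g • S' 0 ((j : ℝ) * D0)) (S' 0 ((j : ℝ) * D0)) = τ := by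
      rw [hgS' 0 _ (hsj j).1 (hsj j).2]
      have h3 := (isom_of_strip hS' (hsj j).1 (hsj j).2).dist_eq (0 + τ) 0
      rw [h3, Real.dist_eq, zero_add, sub_zero, abs_of_pos hτ]
    have h3 := hh j
    rw [dist_comm] at h3
    have := dist_triangle4 (g • h j • x0) (g • S' 0 ((j : ℝ) * D0)) (S' 0 ((j : ℝ) * D0))
      (h j • x0)
    linarith
  -- pigeonhole
  obtain ⟨i, j, hij, heq⟩ : ∃ i j : Fin (N + 1), i < j ∧
      (h i)⁻¹ * g * h i = (h j)⁻¹ * g * h j := by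
    have : ∃ i j : Fin (N + 1), i ≠ j ∧ (h i)⁻¹ * g * h i = (h j)⁻¹ * g * h j := by
      have h1 : hfin.toFinset.card < (Finset.univ : Finset (Fin (N + 1))).card := by
        rw [Finset.card_univ, Fintype.card_fin, ← Set.ncard_eq_toFinset_card _ hfin]
        exact Nat.lt_succ_self _
      obtain ⟨i, -, j, -, h2, h3⟩ := Finset.exists_ne_map_eq_of_card_lt_of_maps_to h1
        (f := fun j => (h j)⁻¹ * g * h j) (fun j _ => by
          rw [Finset.mem_coe, Set.Finite.mem_toFinset]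
          exact hγ j)
      exact ⟨i, j, h2, h3⟩
    obtain ⟨i, j, h1, h2⟩ := this
    rcases lt_or_gt_of_ne h1 with h3 | h3
    · exact ⟨i, j, h3, h2⟩
    · exact ⟨j, i, h3, h2.symm⟩
  have hcom : Commute g (h j * (h i)⁻¹) := by
    show g * (h j * (h i)⁻¹) = h j * (h i)⁻¹ * g
    have h1 : h j * ((h j)⁻¹ * g * h j) * (h i)⁻¹ = h j * ((h i)⁻¹ * g * h i) * (h i)⁻¹ := by
      rw [heq]
    have h2 : h j * ((h j)⁻¹ * g * h j) * (h i)⁻¹ = g * (h j * (h i)⁻¹) := by group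
    have h3 : h j * ((h i)⁻¹ * g * h i) * (h i)⁻¹ = h j * (h i)⁻¹ * g := by group
    rw [← h2, h1, h3]
  -- the distances
  have axi : Axis g τ (fun t => S' t ((i : ℝ) * D0)) :=
    ⟨isom_of_strip hS' (hsj i).1 (hsj i).2, fun t => hgS' t _ (hsj i).1 (hsj i).2⟩
  have axj : Axis g τ (fun t => S' t ((j : ℝ) * D0)) :=
    ⟨isom_of_strip hS' (hsj j).1 (hsj j).2, fun t => hgS' t _ (hsj j).1 (hsj j).2⟩
  have hc'eq : c' = fun t => S' t 0 := by
    funext t
    rw [hS0]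
  have hL0 : 0 ≤ L := by linarith
  have d1 : DD c' (fun t => S' t ((i : ℝ) * D0)) = (i : ℝ) * D0 := by
    rw [hc'eq, dd_strip hS' le_rfl hL0 (hsj i).1 (hsj i).2, zero_sub, abs_neg,
      abs_of_nonneg (hsj i).1]
  have d2 : DD c' (fun t => S' t ((j : ℝ) * D0)) = (j : ℝ) * D0 := by
    rw [hc'eq, dd_strip hS' le_rfl hL0 (hsj j).1 (hsj j).2, zero_sub, abs_neg,
      abs_of_nonneg (hsj j).1]
  have ax2 := axis_comm ax' hcom
  have ax3 := axis_comm axi hcom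
  have d3 := hc' _ hcom
  have d4 : DD (fun t => (h j * (h i)⁻¹) • c' t)
      (fun t => (h j * (h i)⁻¹) • S' t ((i : ℝ) * D0)) = (i : ℝ) * D0 :=
    (DD_smul' _ _ _).trans d1
  have d5 : DD (fun t => (h j * (h i)⁻¹) • S' t ((i : ℝ) * D0))
      (fun t => S' t ((j : ℝ) * D0)) ≤ 2 * r := by
    refine (DD_le_dist _ _ 0).trans ?_
    have e1 : dist ((h j * (h i)⁻¹) • S' 0 ((i : ℝ) * D0)) (h j • x0) ≤ r := by
      have e2 := hh i
      rw [dist_comm, ← dist_smul (h j * (h i)⁻¹), mul_smul (h j) (h i)⁻¹ (h i • x0),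
        inv_smul_smul] at e2
      exact e2
    have := dist_triangle ((h j * (h i)⁻¹) • S' 0 ((i : ℝ) * D0)) (h j • x0)
      (S' 0 ((j : ℝ) * D0))
    have := hh j
    linarith
  have t1 := htri c' _ _ ax'.1 ax2.1 ax3.1 (axis_par hτ ax' ax2) (axis_par hτ ax2 ax3)
  have t2 := htri c' _ _ ax'.1 ax3.1 axj.1 (axis_par hτ ax' ax3) (axis_par hτ ax3 axj)
  have hij' : (i : ℝ) + 1 ≤ j := by exact_mod_cast hij
  have : (i : ℝ) * D0 + D0 ≤ (j : ℝ) * D0 := by nlinarith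
  linarith

end Wide

end Pool.Agent.Y34.HB
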